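import Mathlib
import Pool.Agent.LibMSB.Core

set_option autoImplicit false
set_option linter.unusedSectionVars false

/-!
# LibOC52 (MP_d417b4 Q1, graphs with one core and trees attached to it)

Frame: `C` = core vertices, `EC` = core edges (all vertices of them in `C`), `φ` = parent of the vertices
outside `C`, `rk` = rank with `rk (φ x) < rk x` outside `C`. Edge set `ed C EC φ`.
-/

namespace Pool.Agent.LibOC52

open Finset Pool.Agent.LibMST Pool.Agent.LibMSB

variable {V : Type*} [Fintype V] [DecidableEq V]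

/-- The sets `R` disjoint from `C ∪ S`, every vertex of which has its `φ`-image in `S ∪ R`. -/
def cl (C : Finset V) (φ : V → V) (S : Finset V) : Finset (Finset V) :=
  ((C ∪ S)ᶜ).powerset.filter (fun R => ∀ x ∈ R, φ x ∈ S ∪ R)

/-- Number of sets in `cl`. -/
def wt (C : Finset V) (φ : V → V) (S : Finset V) : ℕ := (cl C φ S).card

/-- Sum of the orders of the sets in `cl`. -/
def sz (C : Finset V) (φ : V → V) (S : Finset V) : ℕ := ∑ R ∈ cl C φ S, R.card

/-- The edges: core edges and the edges `{x, φ x}` for `x` outside the core. -/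
def ed (C : Finset V) (EC : Finset (Sym2 V)) (φ : V → V) : Finset (Sym2 V) :=
  EC ∪ (Cᶜ).image (fun x => s(x, φ x))

/-- The subtrees of the core. -/
noncomputable def tc (C : Finset V) (EC : Finset (Sym2 V)) : Finset (Finset V × Finset (Sym2 V)) :=
  (TP EC).filter (fun p => p.1 ⊆ C)

/-- `h` is a leaf of the tree `p`. -/
def Lf (p : Finset V × Finset (Sym2 V)) (h : V) : Prop := (p.2.filter (fun e => h ∈ e)).card = 1

instance (p : Finset V × Finset (Sym2 V)) (h : V) : Decidable (Lf p h) := by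
  unfold Lf; infer_instance

/-- `A` connects `C`. -/
def Cn (A : Finset (Sym2 V)) (C : Finset V) : Prop :=
  ∀ U : Finset V, U ⊆ C → U.Nonempty → U ≠ C → ∃ u ∈ U, ∃ h ∈ C, h ∉ U ∧ s(u, h) ∈ A

/-- `T'` arises from the tree `T` by attaching a path of `d` new vertices, with end `h`. -/
inductive Ext (A : Finset (Sym2 V)) (T : Finset V × Finset (Sym2 V)) :
    V → Finset V × Finset (Sym2 V) → ℕ → Prop
  | one {u h : V} (hu : u ∈ T.1) (hh : h ∉ T.1) (he : s(u, h) ∈ A) :
      Ext A T h (insert h T.1, insert s(u, h) T.2) 1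
  | succ {u h : V} {T' : Finset V × Finset (Sym2 V)} {d : ℕ} (h1 : Ext A T u T' d)
      (hh : h ∉ T'.1) (he : s(u, h) ∈ A) :
      Ext A T h (insert h T'.1, insert s(u, h) T'.2) (d + 1)

theorem mem_cl {C : Finset V} {φ : V → V} {S R : Finset V} :
    R ∈ cl C φ S ↔ Disjoint R (C ∪ S) ∧ ∀ x ∈ R, φ x ∈ S ∪ R := by
  unfold cl
  rw [mem_filter, mem_powerset, subset_compl_iff_disjoint_right]

theorem mem_tc {C : Finset V} {EC : Finset (Sym2 V)} {p : Finset V × Finset (Sym2 V)} :
    p ∈ tc C EC ↔ (p.2 ⊆ EC ∧ ∃ r, Grow r p.1 p.2) ∧ p.1 ⊆ C := by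
  unfold tc
  rw [mem_filter, mem_TP]

theorem empty_cl (C : Finset V) (φ : V → V) (S : Finset V) : ∅ ∈ cl C φ S := by
  rw [mem_cl]
  simp

theorem wt_pos (C : Finset V) (φ : V → V) (S : Finset V) : 0 < wt C φ S :=
  card_pos.mpr ⟨_, empty_cl C φ S⟩

/-- The root function: `r x` is the first vertex of the core on the path `x, φ x, ...`. -/
theorem exists_root {C : Finset V} {φ : V → V} {rk : V → ℕ} (hrk : ∀ x ∉ C, rk (φ x) < rk x) :
    ∃ r : V → V, (∀ x ∈ C, r x = x) ∧ (∀ x ∉ C, r x = r (φ x)) ∧ ∀ x, r x ∈ C := by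
  classical
  obtain ⟨ψ, hψ⟩ : ∃ ψ : V → V, ψ = fun x => if x ∈ C then x else φ x := ⟨_, rfl⟩
  have h1 : ∀ x ∈ C, ψ x = x := by
    intro x hx; rw [hψ]; simp [hx]
  have h2 : ∀ x ∉ C, ψ x = φ x := by
    intro x hx; rw [hψ]; simp [hx]
  have hfix : ∀ n, ∀ x ∈ C, ψ^[n] x = x := by
    intro n x hx
    induction n with
    | zero => rfl
    | succ n ih => rw [Function.iterate_succ_apply, h1 x hx, ih]
  have key : ∀ n x, rk x < n → ψ^[n] x ∈ C := by
    intro n
    induction n with
    | zero => intro x hx; omega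
    | succ n ih =>
      intro x hx
      by_cases hxC : x ∈ C
      · rw [hfix _ x hxC]; exact hxC
      · rw [Function.iterate_succ_apply, h2 x hxC]
        have h3 := hrk x hxC
        exact ih _ (by omega)
  obtain ⟨N, hN⟩ : ∃ N, ∀ x, rk x < N := by
    refine ⟨univ.sup rk + 1, fun x => ?_⟩
    have := Finset.le_sup (f := rk) (mem_univ x)
    omega
  refine ⟨fun x => ψ^[N] x, fun x hx => hfix N x hx, fun x hx => ?_, fun x => key N x (hN x)⟩
  show ψ^[N] x = ψ^[N] (φ x)
  have h3 : ψ^[N] (φ x) = ψ^[N + 1] x := by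
    rw [Function.iterate_succ_apply, h2 x hx]
  rw [h3, Function.iterate_succ_apply', h1 _ (key N x (hN x))]

end Pool.Agent.LibOC52
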