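import Mathlib
import Pool.Agent.LibOC52.Defs

set_option autoImplicit false
set_option linter.unusedSectionVars false

namespace Pool.Agent.LibOC52

open Finset Pool.Agent.LibMST Pool.Agent.LibMSB

variable {V : Type*} [Fintype V] [DecidableEq V]

/-- No edge of a core tree at a vertex outside it. -/
private theorem X1_no {C : Finset V} {EC : Finset (Sym2 V)} {T : Finset V × Finset (Sym2 V)}
    (hT : T ∈ tc C EC) {h : V} (hh : h ∉ T.1) : ∀ e ∈ T.2, h ∉ e := by
  intro e he hm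
  obtain ⟨⟨_, r, hg⟩, _⟩ := mem_tc.1 hT
  exact hh (hg.edge_sub e he h hm)

private theorem X1_filter {T : Finset V × Finset (Sym2 V)} {u h : V}
    (hno : ∀ e ∈ T.2, h ∉ e) :
    (insert s(u, h) T.2).filter (fun e => h ∈ e) = {s(u, h)} := by
  ext e
  rw [mem_filter, mem_insert, mem_singleton]
  constructor
  · rintro ⟨rfl | he, hm⟩
    · rfl
    · exact absurd hm (hno e he)
  · rintro rfl
    exact ⟨Or.inl rfl, Sym2.mem_mk_right u h⟩

private theorem X1_filter' {T : Finset V × Finset (Sym2 V)} {u h : V}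
    (hno : ∀ e ∈ T.2, h ∉ e) :
    (insert s(u, h) T.2).filter (fun e => h ∉ e) = T.2 := by
  ext e
  rw [mem_filter, mem_insert]
  constructor
  · rintro ⟨rfl | he, hm⟩
    · exact absurd (Sym2.mem_mk_right u h) hm
    · exact he
  · intro he
    exact ⟨Or.inr he, hno e he⟩

/-- One step. -/
private theorem X1_step {C : Finset V} {EC : Finset (Sym2 V)} (hEC : ∀ e ∈ EC, ∀ x ∈ e, x ∈ C)
    {T : Finset V × Finset (Sym2 V)} (hT : T ∈ tc C EC) {u h : V} (hu : u ∈ T.1) (hh : h ∉ T.1)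
    (he : s(u, h) ∈ EC) :
    ((insert h T.1, insert s(u, h) T.2) : Finset V × Finset (Sym2 V)) ∈ tc C EC ∧
      (insert h T.1).card = T.1.card + 1 ∧
      Lf ((insert h T.1, insert s(u, h) T.2) : Finset V × Finset (Sym2 V)) h := by
  obtain ⟨⟨h1, r, hg⟩, h2⟩ := mem_tc.1 hT
  refine ⟨mem_tc.2 ⟨⟨?_, r, hg.step hu hh⟩, ?_⟩, card_insert_of_notMem hh, ?_⟩
  · exact insert_subset he h1
  · exact insert_subset (hEC _ he h (Sym2.mem_mk_right u h)) h2
  · unfold Lf
    have h3 := X1_filter (u := u) (X1_no hT hh)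
    show ((insert s(u, h) T.2).filter (fun e => h ∈ e)).card = 1
    rw [h3, card_singleton]

/-- ROW X1a (SHORT). Properties of an extension. Plan: induction on the derivation (Grow.step, Grow.edge_sub: the edges of a tree
have both ends in it, so `s(u, h)` is new and is the only edge at `h`). -/
theorem ext_props {C : Finset V} {EC A : Finset (Sym2 V)} (hA : A ⊆ EC) (hEC : ∀ e ∈ EC, ∀ x ∈ e, x ∈ C)
    {T T' : Finset V × Finset (Sym2 V)} (hT : T ∈ tc C EC) {h : V} {d : ℕ} (he : Ext A T h T' d) :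
    T' ∈ tc C EC ∧ T.1 ⊆ T'.1 ∧ h ∈ T'.1 ∧ h ∉ T.1 ∧ T'.1.card = T.1.card + d ∧ 1 ≤ d ∧ Lf T' h := by
  induction he with
  | @one u h hu hh he =>
    obtain ⟨h1, h2, h3⟩ := X1_step hEC hT hu hh (hA he)
    exact ⟨h1, subset_insert _ _, mem_insert_self _ _, hh, h2, le_rfl, h3⟩
  | @succ u h T' d _ hh he ih =>
    obtain ⟨i1, i2, i3, i4, i5, i6, i7⟩ := ih
    obtain ⟨h1, h2, h3⟩ := X1_step hEC i1 i3 hh (hA he)
    refine ⟨h1, i2.trans (subset_insert _ _), mem_insert_self _ _, fun hm => hh (i2 hm), ?_,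
      by omega, h3⟩
    show (insert h T'.1).card = T.1.card + (d + 1)
    rw [h2, i5]
    ring

/-- Peeling off the last vertex. -/
private theorem X1_peel {C : Finset V} {EC : Finset (Sym2 V)}
    {T1 T2 : Finset V × Finset (Sym2 V)} (h1 : T1 ∈ tc C EC) (h2 : T2 ∈ tc C EC) {u1 u2 h : V}
    (hu1 : u1 ∈ T1.1) (hh1 : h ∉ T1.1) (hh2 : h ∉ T2.1)
    (e : ((insert h T2.1, insert s(u2, h) T2.2) : Finset V × Finset (Sym2 V)) =
      (insert h T1.1, insert s(u1, h) T1.2)) : T1 = T2 ∧ u1 = u2 := by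
  have e1 : insert h T2.1 = insert h T1.1 := congrArg Prod.fst e
  have e2 : insert s(u2, h) T2.2 = insert s(u1, h) T1.2 := congrArg Prod.snd e
  have f1 : T1.1 = T2.1 := by
    rw [← erase_insert hh1, ← erase_insert hh2, e1]
  have f2 : T1.2 = T2.2 := by
    rw [← X1_filter' (u := u1) (X1_no h1 hh1), ← X1_filter' (u := u2) (X1_no h2 hh2), e2]
  have f3 : ({s(u1, h)} : Finset (Sym2 V)) = {s(u2, h)} := by
    rw [← X1_filter (u := u1) (X1_no h1 hh1), ← X1_filter (u := u2) (X1_no h2 hh2), e2]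
  refine ⟨Prod.ext f1 f2, ?_⟩
  have f4 : s(u1, h) = s(u2, h) := singleton_injective f3
  rw [Sym2.eq_iff] at f4
  rcases f4 with ⟨h3, _⟩ | ⟨h3, _⟩
  · exact h3
  · exact absurd (h3 ▸ hu1) hh1

private theorem X1_uniq {C : Finset V} {EC : Finset (Sym2 V)} (hEC : ∀ e ∈ EC, ∀ x ∈ e, x ∈ C)
    {T1 T' : Finset V × Finset (Sym2 V)} (h1 : T1 ∈ tc C EC) {h : V} {d : ℕ}
    (e1 : Ext EC T1 h T' d) : ∀ (T2 T'' : Finset V × Finset (Sym2 V)) (h' : V) (d' : ℕ),
    T2 ∈ tc C EC → Ext EC T2 h' T'' d' → h' = h → T'' = T' → d' = d → T1 = T2 := by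
  induction e1 with
  | @one u h hu hh he =>
    intro T2 T'' h' d' h2 e2 eh eT ed
    cases e2 with
    | @one u' _ hu' hh' he' =>
      subst eh
      exact (X1_peel h1 h2 hu hh hh' eT).1
    | @succ u' _ T3 d3 e3 hh' he' =>
      have h3 := (ext_props (Subset.refl EC) hEC h2 e3).2.2.2.2.2.1
      omega
  | @succ u h T4 d4 e4 hh he ih =>
    intro T2 T'' h' d' h2 e2 eh eT ed
    have p4 := ext_props (Subset.refl EC) hEC h1 e4
    cases e2 with
    | @one u' _ hu' hh' he' =>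
      have h3 := p4.2.2.2.2.2.1
      omega
    | @succ u' _ T3 d3 e3 hh' he' =>
      subst eh
      have p3 := ext_props (Subset.refl EC) hEC h2 e3
      obtain ⟨g1, g2⟩ := X1_peel p4.1 p3.1 p4.2.2.1 hh hh' eT
      exact ih T2 T3 u' d3 h2 e3 g2.symm g1.symm (by omega)

/-- ROW X1b (SHORT). The tree and the length determine the beginning. Plan: induction on `d` (generalizing `h`, `T'`); in
`(insert h U, insert s(u, h) F)` with `h ∉ U` and no edge of `F` at `h` (ext_props, Grow.edge_sub): `U` = erase `h`, `u` and `F` are determined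
by the only edge at `h`. -/
theorem ext_unique {C : Finset V} {EC : Finset (Sym2 V)} (hEC : ∀ e ∈ EC, ∀ x ∈ e, x ∈ C)
    {T1 T2 T' : Finset V × Finset (Sym2 V)} (h1 : T1 ∈ tc C EC) (h2 : T2 ∈ tc C EC) {h : V} {d : ℕ}
    (e1 : Ext EC T1 h T' d) (e2 : Ext EC T2 h T' d) : T1 = T2 :=
  X1_uniq hEC h1 e1 T2 T' h d h2 e2 rfl rfl rfl

end Pool.Agent.LibOC52
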