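import Mathlib
import Pool.Agent.LibOC52.Defs

set_option autoImplicit false
set_option linter.unusedSectionVars false

namespace Pool.Agent.LibOC52

open Finset Pool.Agent.LibMST Pool.Agent.LibMSB

variable {V : Type*} [Fintype V] [DecidableEq V]

private theorem ext_prefix {A : Finset (Sym2 V)} {T : Finset V × Finset (Sym2 V)} {h : V}
    {T' : Finset V × Finset (Sym2 V)} {d : ℕ} (hE : Ext A T h T' d) :
    ∀ z ∈ T'.1, z ∈ T.1 ∨ ∃ T2 d2, Ext A T z T2 d2 := by
  induction hE with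
  | @one u h hu hh he =>
    intro z hz
    rcases mem_insert.mp hz with rfl | hz
    · exact Or.inr ⟨_, _, Ext.one hu hh he⟩
    · exact Or.inl hz
  | @succ u h T1 d1 h1 hh he ih =>
    intro z hz
    rcases mem_insert.mp hz with rfl | hz
    · exact Or.inr ⟨_, _, Ext.succ h1 hh he⟩
    · exact ih z hz

private theorem ext_mono {A A' : Finset (Sym2 V)} (hAA : A ⊆ A') {T : Finset V × Finset (Sym2 V)} {h : V}
    {T' : Finset V × Finset (Sym2 V)} {d : ℕ} (hE : Ext A T h T' d) : Ext A' T h T' d := by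
  induction hE with
  | one hu hh he => exact Ext.one hu hh (hAA he)
  | succ h1 hh he ih => exact Ext.succ ih hh (hAA he)

private theorem ext_edges {A : Finset (Sym2 V)} {T : Finset V × Finset (Sym2 V)} {h : V}
    {T' : Finset V × Finset (Sym2 V)} {d : ℕ} (hE : Ext A T h T' d) : ∀ e ∈ T'.2, e ∈ T.2 ∨ e ∈ A := by
  induction hE with
  | one hu hh he =>
    intro z hz
    rcases mem_insert.mp hz with rfl | hz
    · exact Or.inr he
    · exact Or.inl hz
  | succ h1 hh he ih =>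
    intro z hz
    rcases mem_insert.mp hz with rfl | hz
    · exact Or.inr he
    · exact ih z hz

private theorem ext_last {A : Finset (Sym2 V)} {T : Finset V × Finset (Sym2 V)} {h : V}
    {T' : Finset V × Finset (Sym2 V)} {d : ℕ} (hE : Ext A T h T' d) : ∃ u, s(u, h) ∈ A ∧ s(u, h) ∈ T'.2 := by
  cases hE with
  | one hu hh he => exact ⟨_, he, mem_insert_self _ _⟩
  | succ h1 hh he => exact ⟨_, he, mem_insert_self _ _⟩

/-- ROW X2a (SHORT). Existence of an extension. Plan: `U` = the set of the `z ∈ C` with `z ∈ T.1` or `∃ T' d, Ext A T z T' d`. If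
`U ≠ C`, `Cn` gives `u ∈ U`, `h ∈ C`, `h ∉ U`, `s(u, h) ∈ A`. If `u ∈ T.1` use `Ext.one`. Otherwise `Ext A T u T' d` and `h ∉ T'.1` because all
vertices of `T'.1` are in `T.1` or are ends of extensions (induction on Ext: prefixes), use `Ext.succ`. -/
theorem ext_exists {C : Finset V} {A : Finset (Sym2 V)} (hA : Cn A C) {T : Finset V × Finset (Sym2 V)}
    (hT : T.1 ⊆ C) (hne : T.1.Nonempty) {h : V} (hh : h ∈ C) (hn : h ∉ T.1) :
    ∃ T' d, Ext A T h T' d := by
  classical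
  by_contra hcon
  obtain ⟨U, hU⟩ : ∃ U : Finset V, U = C.filter (fun z => z ∈ T.1 ∨ ∃ T' d, Ext A T z T' d) := ⟨_, rfl⟩
  have hUC : U ⊆ C := by rw [hU]; exact filter_subset _ _
  have hUn : U.Nonempty := by
    obtain ⟨x, hx⟩ := hne
    exact ⟨x, by rw [hU, mem_filter]; exact ⟨hT hx, Or.inl hx⟩⟩
  have hUne : U ≠ C := by
    intro h1
    rw [← h1, hU, mem_filter] at hh
    rcases hh.2 with h2 | h2
    · exact hn h2
    · exact hcon h2
  obtain ⟨u, hu, w, hw, hwU, he⟩ := hA U hUC hUn hUne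
  have hw1 : ¬ (w ∈ T.1 ∨ ∃ T' d, Ext A T w T' d) := by
    intro h1
    exact hwU (by rw [hU, mem_filter]; exact ⟨hw, h1⟩)
  rw [hU, mem_filter] at hu
  rcases hu.2 with h2 | ⟨T', d, h2⟩
  · exact hw1 (Or.inr ⟨_, _, Ext.one h2 (fun h3 => hw1 (Or.inl h3)) he⟩)
  · exact hw1 (Or.inr ⟨_, _, Ext.succ h2 (fun h3 => hw1 (ext_prefix h2 w h3)) he⟩)

/-- ROW X2b (MEDIUM). Two different extensions. Plan: X2a for `EC` (`Cn EC C` follows from `hb` for any `e` if `EC` is not empty; if `EC` is empty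
`Cn EC C` fails to give an edge, but then `hc` is given) gives `T1`; its last edge `e = s(u, h)` (cases on Ext) is in `EC`; X2a for `EC.erase e`
gives `T2`, an extension also in `EC` (monotone in `A`), whose edge at `h` is in `EC.erase e` (cases on Ext) while `T.2` has no edge at `h`
(Grow.edge_sub), so `T1.2 ≠ T2.2` (the last edge `e` of `T1` is at `h` and is not an edge of `T2`: all edges of `T2` are in `T.2 ∪ EC.erase e`). -/
theorem ext_two {C : Finset V} {EC : Finset (Sym2 V)} (hEC : ∀ e ∈ EC, ∀ x ∈ e, x ∈ C) (hc : Cn EC C)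
    (hb : ∀ e ∈ EC, Cn (EC.erase e) C) {T : Finset V × Finset (Sym2 V)} (hT : T ∈ tc C EC) {h : V} (hh : h ∈ C)
    (hn : h ∉ T.1) : ∃ T1 d1 T2 d2, Ext EC T h T1 d1 ∧ Ext EC T h T2 d2 ∧ T1 ≠ T2 := by
  obtain ⟨⟨_, r, hr⟩, hTC⟩ := mem_tc.mp hT
  have hne : T.1.Nonempty := ⟨r, hr.root_mem⟩
  obtain ⟨T1, d1, h1⟩ := ext_exists hc hTC hne hh hn
  obtain ⟨u, heA, he1⟩ := ext_last h1
  obtain ⟨T2, d2, h2⟩ := ext_exists (hb _ heA) hTC hne hh hn
  refine ⟨T1, d1, T2, d2, h1, ext_mono (erase_subset _ _) h2, fun h3 => ?_⟩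
  rw [h3] at he1
  rcases ext_edges h2 _ he1 with h4 | h4
  · exact hn (hr.edge_sub _ h4 h (Sym2.mem_mk_right u h))
  · exact (notMem_erase _ _) h4

end Pool.Agent.LibOC52
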