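import Mathlib
import Pool.Agent.LibOC52.X1
import Pool.Agent.LibOC52.X2

set_option autoImplicit false
set_option linter.unusedSectionVars false

namespace Pool.Agent.LibOC52

open Finset Pool.Agent.LibMST Pool.Agent.LibMSB

variable {V : Type*} [Fintype V] [DecidableEq V]

/-- For every tree of the core without `h` there are at least `D` extensions with end `h`. -/
def Nx (C : Finset V) (EC : Finset (Sym2 V)) (h : V) (D : ℕ) : Prop :=
  ∀ T ∈ tc C EC, h ∉ T.1 → ∃ P : Finset (Σ _ : Finset V × Finset (Sym2 V), ℕ),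
    D ≤ P.card ∧ ∀ p ∈ P, Ext EC T h p.1 p.2

theorem Nx_two {C : Finset V} {EC : Finset (Sym2 V)} (hEC : ∀ e ∈ EC, ∀ x ∈ e, x ∈ C) (hc : Cn EC C)
    (hb : ∀ e ∈ EC, Cn (EC.erase e) C) {h : V} (hh : h ∈ C) : Nx C EC h 2 := by
  classical
  intro T hT hn
  obtain ⟨T1, d1, T2, d2, e1, e2, hne⟩ := ext_two hEC hc hb hT hh hn
  refine ⟨{⟨T1, d1⟩, ⟨T2, d2⟩}, ?_, ?_⟩
  · rw [card_pair]
    intro he
    exact hne (congrArg Sigma.fst he)
  · intro p hp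
    rw [mem_insert, mem_singleton] at hp
    rcases hp with rfl | rfl
    · exact e1
    · exact e2

/-- The extension inequality. -/
theorem count {C : Finset V} {EC : Finset (Sym2 V)} (hEC : ∀ e ∈ EC, ∀ x ∈ e, x ∈ C)
    {w : V → ℚ} (hw : ∀ v, 1 ≤ w v) {h : V} {D : ℕ} (hD : Nx C EC h D)
    {f : ℕ → ℚ} (hf : ∀ n, 0 ≤ f n) :
    (D : ℚ) * w h * ∑ T ∈ (tc C EC).filter (fun T => h ∉ T.1), (∏ v ∈ T.1, w v) * f T.1.card ≤
      ∑ T ∈ (tc C EC).filter (fun T => Lf T h),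
        (∏ v ∈ T.1, w v) * ∑ d ∈ Ico 1 T.1.card, f (T.1.card - d) := by
  classical
  have hex : ∀ T : Finset V × Finset (Sym2 V), ∃ P : Finset (Σ _ : Finset V × Finset (Sym2 V), ℕ),
      T ∈ tc C EC → h ∉ T.1 → D ≤ P.card ∧ ∀ p ∈ P, Ext EC T h p.1 p.2 := by
    intro T
    by_cases h1 : T ∈ tc C EC ∧ h ∉ T.1
    · obtain ⟨P, hP⟩ := hD T h1.1 h1.2
      exact ⟨P, fun _ _ => hP⟩
    · exact ⟨∅, fun h2 h3 => absurd ⟨h2, h3⟩ h1⟩
  choose P hP using hex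
  have hprod : ∀ S S' : Finset V, S ⊆ S' → h ∈ S' → h ∉ S → w h * ∏ v ∈ S, w v ≤ ∏ v ∈ S', w v := by
    intro S S' h1 h2 h3
    have h4 : insert h S ⊆ S' := insert_subset h2 h1
    have h5 : ∀ s : Finset V, 1 ≤ ∏ v ∈ s, w v := fun s =>
      Finset.prod_induction w (fun x => 1 ≤ x) (fun a b ha hb => one_le_mul_of_one_le_of_one_le ha hb)
        le_rfl (fun v _ => hw v)
    rw [← prod_insert h3, ← prod_sdiff h4]
    have h6 := h5 (insert h S)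
    have h7 := h5 (S' \ insert h S)
    nlinarith
  have hpos : ∀ S : Finset V, 0 ≤ ∏ v ∈ S, w v := fun S =>
    prod_nonneg (fun i _ => zero_le_one.trans (hw i))
  obtain ⟨s, hs⟩ : ∃ s, s = (tc C EC).filter (fun T => h ∉ T.1) := ⟨_, rfl⟩
  obtain ⟨G, hG⟩ : ∃ G : (Σ _ : Finset V × Finset (Sym2 V), ℕ) → ℚ,
    G = fun y => (∏ v ∈ y.1.1, w v) * f (y.1.1.card - y.2) := ⟨_, rfl⟩
  have h1 : ∀ T ∈ s, ∀ p ∈ P T, w h * ((∏ v ∈ T.1, w v) * f T.1.card) ≤ G p := by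
    intro T hT p hp
    rw [hs, mem_filter] at hT
    obtain ⟨q1, q2, q3, q4, q5, q6, q7⟩ := ext_props (subset_refl EC) hEC hT.1 ((hP T hT.1 hT.2).2 p hp)
    rw [hG]
    show w h * ((∏ v ∈ T.1, w v) * f T.1.card) ≤ (∏ v ∈ p.1.1, w v) * f (p.1.1.card - p.2)
    rw [q5, Nat.add_sub_cancel, ← mul_assoc]
    exact mul_le_mul_of_nonneg_right (hprod _ _ q2 q3 q4) (hf _)
  have hwh : 0 ≤ w h := zero_le_one.trans (hw h)
  have h2 : (D : ℚ) * w h * ∑ T ∈ s, (∏ v ∈ T.1, w v) * f T.1.card ≤ ∑ x ∈ s.sigma P, G x.2 := by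
    rw [sum_sigma, mul_sum]
    apply sum_le_sum
    intro T hT
    have hT' := hT
    rw [hs, mem_filter] at hT'
    have a1 : ∑ p ∈ P T, w h * ((∏ v ∈ T.1, w v) * f T.1.card) ≤ ∑ p ∈ P T, G p :=
      sum_le_sum (h1 T hT)
    rw [sum_const, nsmul_eq_mul] at a1
    have a2 : (D : ℚ) ≤ ((P T).card : ℚ) := by exact_mod_cast (hP T hT'.1 hT'.2).1
    have a3 : 0 ≤ w h * ((∏ v ∈ T.1, w v) * f T.1.card) :=
      mul_nonneg hwh (mul_nonneg (hpos _) (hf _))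
    have a4 := mul_le_mul_of_nonneg_right a2 a3
    calc (D : ℚ) * w h * ((∏ v ∈ T.1, w v) * f T.1.card)
        = (D : ℚ) * (w h * ((∏ v ∈ T.1, w v) * f T.1.card)) := by ring
      _ ≤ _ := a4.trans a1
  have hinj : Set.InjOn (fun x : (Σ _ : Finset V × Finset (Sym2 V), Σ _ : Finset V × Finset (Sym2 V), ℕ) => x.2)
      ((s.sigma P : Finset _) : Set _) := by
    rintro ⟨T1, p1⟩ hx ⟨T2, p2⟩ hy hxy
    simp only [mem_coe, mem_sigma, hs, mem_filter] at hx hy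
    simp only at hxy
    subst hxy
    have e1 := (hP T1 hx.1.1 hx.1.2).2 p1 hx.2
    have e2 := (hP T2 hy.1.1 hy.1.2).2 p1 hy.2
    have hT := ext_unique hEC hx.1.1 hy.1.1 e1 e2
    subst hT
    rfl
  have h3 : ∑ x ∈ s.sigma P, G x.2 =
      ∑ y ∈ (s.sigma P).image (fun x => x.2), G y := (sum_image hinj).symm
  have h4 : ∑ T ∈ (tc C EC).filter (fun T => Lf T h),
        (∏ v ∈ T.1, w v) * ∑ d ∈ Ico 1 T.1.card, f (T.1.card - d) =
      ∑ y ∈ ((tc C EC).filter (fun T => Lf T h)).sigma (fun T => Ico 1 T.1.card), G y := by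
    rw [sum_sigma, hG]
    apply sum_congr rfl
    intro T _
    rw [mul_sum]
  rw [← hs, h4]
  refine (h2.trans_eq h3).trans ?_
  apply sum_le_sum_of_subset_of_nonneg
  · intro y hy
    rw [mem_image] at hy
    obtain ⟨⟨T, p⟩, hx, rfl⟩ := hy
    rw [mem_sigma, hs, mem_filter] at hx
    obtain ⟨q1, q2, q3, q4, q5, q6, q7⟩ :=
      ext_props (subset_refl EC) hEC hx.1.1 ((hP T hx.1.1 hx.1.2).2 p hx.2)
    rw [mem_sigma, mem_filter, mem_Ico]
    refine ⟨⟨q1, q7⟩, q6, ?_⟩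
    have hTc := hx.1.1
    rw [mem_tc] at hTc
    obtain ⟨⟨_, r, hg⟩, _⟩ := hTc
    have h8 : 0 < T.1.card := card_pos.mpr ⟨r, hg.root_mem⟩
    show p.2 < p.1.1.card
    have h9 : p.1.1.card = T.1.card + p.2 := q5
    omega
  · intro y _ _
    rw [hG]
    exact mul_nonneg (hpos _) (hf _)

end Pool.Agent.LibOC52
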