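import Mathlib
import Pool.Agent.LibOC52.Defs

set_option autoImplicit false
set_option linter.unusedSectionVars false

namespace Pool.Agent.LibOC52

open Finset Pool.Agent.LibMST Pool.Agent.LibMSB

variable {V : Type*} [Fintype V] [DecidableEq V]

/-- The set of all vertices below `x` and its properties. -/
private theorem jam_D {C : Finset V} {φ : V → V} {rk : V → ℕ} (hrk : ∀ x ∉ C, rk (φ x) < rk x) {x : V} (hx : x ∉ C) :
    ∃ D : Finset V, x ∈ D ∧ (∀ z ∈ D, z ∉ C) ∧ (∀ z ∈ D, z ≠ x → φ z ∈ D) ∧ (∀ z, z ∉ C → φ z ∈ D → z ∈ D) ∧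
      φ x ∉ D := by
  classical
  obtain ⟨D, hD⟩ : ∃ D : Finset V, ∀ z, z ∈ D ↔ ∃ n, φ^[n] z = x ∧ ∀ m < n, φ^[m] z ∉ C :=
    ⟨univ.filter (fun z => ∃ n, φ^[n] z = x ∧ ∀ m < n, φ^[m] z ∉ C), fun z => by simp⟩
  have hxD : x ∈ D := (hD x).mpr ⟨0, rfl, fun m hm => absurd hm (Nat.not_lt_zero m)⟩
  have hDC : ∀ z ∈ D, z ∉ C := by
    intro z hz
    obtain ⟨n, hn, hm⟩ := (hD z).mp hz
    rcases n with _ | n
    · have : z = x := hn
      rw [this]; exact hx
    · exact hm 0 (Nat.succ_pos n)
  have hDs : ∀ z ∈ D, z ≠ x → φ z ∈ D := by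
    intro z hz hzx
    obtain ⟨n, hn, hm⟩ := (hD z).mp hz
    rcases n with _ | n
    · exact absurd hn hzx
    · refine (hD _).mpr ⟨n, ?_, fun m hmn => ?_⟩
      · rw [← hn, Function.iterate_succ_apply]
      · have := hm (m + 1) (Nat.succ_lt_succ hmn)
        rwa [Function.iterate_succ_apply] at this
  have hDp : ∀ z, z ∉ C → φ z ∈ D → z ∈ D := by
    intro z hz h
    obtain ⟨n, hn, hm⟩ := (hD _).mp h
    refine (hD _).mpr ⟨n + 1, ?_, fun m hmn => ?_⟩
    · rw [Function.iterate_succ_apply]; exact hn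
    · rcases m with _ | m
      · exact hz
      · rw [Function.iterate_succ_apply]; exact hm m (Nat.lt_of_succ_lt_succ hmn)
  have hrD : ∀ k z, rk z ≤ k → z ∈ D → rk x ≤ rk z := by
    intro k
    induction k with
    | zero =>
      intro z hz hzD
      by_cases h : z = x
      · rw [h]
      · have := hrk z (hDC z hzD); omega
    | succ k ih =>
      intro z hz hzD
      by_cases h : z = x
      · rw [h]
      · have h1 := hrk z (hDC z hzD)
        have h2 := ih (φ z) (by omega) (hDs z hzD h)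
        omega
  refine ⟨D, hxD, hDC, hDs, hDp, fun h => ?_⟩
  have h1 := hrD _ (φ x) le_rfl h
  have h2 := hrk x hx
  omega

/-- The correspondence of the sets containing `x` with the pairs. -/
private theorem jam_sum {C : Finset V} {φ : V → V} {rk : V → ℕ} (hrk : ∀ x ∉ C, rk (φ x) < rk x) {x : V} (hx : x ∉ C)
    (g : Finset V → ℕ) :
    ∑ R ∈ (cl C φ {φ x}).filter (fun R => x ∈ R), g R
      = ∑ p ∈ cl C φ {x} ×ˢ (cl C φ {φ x}).filter (fun R => x ∉ R), g (insert x p.1 ∪ p.2) := by
  classical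
  obtain ⟨D, hxD, hDC, hDs, hDp, hyD⟩ := jam_D hrk hx
  have hxy : x ≠ φ x := fun h => hyD (h ▸ hxD)
  have hR : ∀ R ∈ cl C φ {φ x}, ∀ k z, rk z ≤ k → z ∈ R → z ∈ D → x ∈ R := by
    intro R hR k
    rw [mem_cl] at hR
    induction k with
    | zero =>
      intro z hz hzR hzD
      by_cases h : z = x
      · rwa [← h]
      · have := hrk z (hDC z hzD); omega
    | succ k ih =>
      intro z hz hzR hzD
      by_cases h : z = x
      · rwa [← h]
      · have h1 := hrk z (hDC z hzD)
        have h2 := hR.2 z hzR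
        have h3 := hDs z hzD h
        rw [mem_union, mem_singleton] at h2
        rcases h2 with h2 | h2
        · exact absurd (h2 ▸ h3) hyD
        · exact ih (φ z) (by omega) h2 h3
  have h1D : ∀ R ∈ cl C φ {x}, ∀ k z, rk z ≤ k → z ∈ R → z ∈ D := by
    intro R hR k
    rw [mem_cl] at hR
    have hRC : ∀ z ∈ R, z ∉ C := fun z hz hzC => disjoint_left.mp hR.1 hz (mem_union_left _ hzC)
    induction k with
    | zero =>
      intro z hz hzR
      have := hrk z (hRC z hzR); omega
    | succ k ih =>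
      intro z hz hzR
      have h1 := hrk z (hRC z hzR)
      have h2 := hR.2 z hzR
      rw [mem_union, mem_singleton] at h2
      rcases h2 with h2 | h2
      · exact hDp z (hRC z hzR) (h2 ▸ hxD)
      · exact hDp z (hRC z hzR) (ih (φ z) (by omega) h2)
  refine Finset.sum_nbij' (i := fun R => ((R ∩ D).erase x, R \ D)) (j := fun p => insert x p.1 ∪ p.2) ?_ ?_ ?_ ?_ ?_
  · intro R hRm
    rw [mem_filter] at hRm
    obtain ⟨hRc, hxR⟩ := hRm
    have hRc' := mem_cl.mp hRc
    have hRC : ∀ z ∈ R, z ∉ C := fun z hz hzC => disjoint_left.mp hRc'.1 hz (mem_union_left _ hzC)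
    have hRy : φ x ∉ R := fun h => disjoint_left.mp hRc'.1 h (mem_union_right _ (mem_singleton_self _))
    rw [mem_product, mem_filter, mem_cl, mem_cl]
    refine ⟨⟨?_, ?_⟩, ⟨?_, ?_⟩, ?_⟩
    · rw [disjoint_left]
      intro z hz hz2
      rw [mem_erase, mem_inter] at hz
      rw [mem_union, mem_singleton] at hz2
      rcases hz2 with h | h
      · exact hRC z hz.2.1 h
      · exact hz.1 h
    · intro z hz
      rw [mem_erase, mem_inter] at hz
      have h1 := hRc'.2 z hz.2.1
      have h2 := hDs z hz.2.2 hz.1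
      rw [mem_union, mem_singleton, mem_erase, mem_inter]
      rw [mem_union, mem_singleton] at h1
      rcases h1 with h1 | h1
      · exact absurd (h1 ▸ h2) hyD
      · by_cases h : φ z = x
        · exact Or.inl h
        · exact Or.inr ⟨h, h1, h2⟩
    · rw [disjoint_left]
      intro z hz hz2
      rw [mem_sdiff] at hz
      exact disjoint_left.mp hRc'.1 hz.1 hz2
    · intro z hz
      rw [mem_sdiff] at hz
      have h1 := hRc'.2 z hz.1
      rw [mem_union] at h1 ⊢
      rcases h1 with h1 | h1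
      · exact Or.inl h1
      · exact Or.inr (mem_sdiff.mpr ⟨h1, fun h => hz.2 (hDp z (hRC z hz.1) h)⟩)
    · intro h
      exact (mem_sdiff.mp h).2 hxD
  · intro p hp
    rw [mem_product, mem_filter] at hp
    obtain ⟨hp1, hp2, hp3⟩ := hp
    have hp1' := mem_cl.mp hp1
    have hp2' := mem_cl.mp hp2
    have hp1D : ∀ z ∈ p.1, z ∈ D := fun z hz => h1D p.1 hp1 _ z le_rfl hz
    rw [mem_filter, mem_cl]
    refine ⟨⟨?_, ?_⟩, mem_union_left _ (mem_insert_self _ _)⟩
    · rw [disjoint_left]
      intro z hz hz2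
      rw [mem_union, mem_insert] at hz
      rw [mem_union, mem_singleton] at hz2
      have hcase : z ∈ D → False := by
        intro hzD
        rcases hz2 with h | h
        · exact hDC z hzD h
        · exact hyD (h ▸ hzD)
      rcases hz with (h | h) | h
      · exact hcase (h ▸ hxD)
      · exact hcase (hp1D z h)
      · refine disjoint_left.mp hp2'.1 h ?_
        rw [mem_union, mem_singleton]
        exact hz2
    · intro z hz
      rw [mem_union, mem_insert] at hz
      rw [mem_union, mem_singleton, mem_union, mem_insert]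
      rcases hz with (h | h) | h
      · left; rw [h]
      · have h1 := hp1'.2 z h
        rw [mem_union, mem_singleton] at h1
        right; left
        exact h1
      · have h1 := hp2'.2 z h
        rw [mem_union, mem_singleton] at h1
        rcases h1 with h1 | h1
        · exact Or.inl h1
        · exact Or.inr (Or.inr h1)
  · intro R hRm
    rw [mem_filter] at hRm
    obtain ⟨hRc, hxR⟩ := hRm
    ext z
    simp only [mem_union, mem_insert, mem_erase, mem_inter, mem_sdiff]
    constructor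
    · rintro ((h | h) | h)
      · rw [h]; exact hxR
      · exact h.2.1
      · exact h.1
    · intro h
      by_cases h1 : z = x
      · exact Or.inl (Or.inl h1)
      · by_cases h2 : z ∈ D
        · exact Or.inl (Or.inr ⟨h1, h, h2⟩)
        · exact Or.inr ⟨h, h2⟩
  · intro p hp
    rw [mem_product, mem_filter] at hp
    obtain ⟨hp1, hp2, hp3⟩ := hp
    have hp1' := mem_cl.mp hp1
    have hp1D : ∀ z ∈ p.1, z ∈ D := fun z hz => h1D p.1 hp1 _ z le_rfl hz
    have hp2D : ∀ z ∈ p.2, z ∉ D := fun z hz hzD => hp3 (hR p.2 hp2 _ z le_rfl hz hzD)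
    have hxp1 : x ∉ p.1 := fun h => disjoint_left.mp hp1'.1 h (mem_union_right _ (mem_singleton_self _))
    refine Prod.ext ?_ ?_
    · ext z
      simp only [mem_union, mem_insert, mem_erase, mem_inter]
      constructor
      · rintro ⟨h1, (h | h) | h, h2⟩
        · exact absurd h h1
        · exact h
        · exact absurd h2 (hp2D z h)
      · intro h
        exact ⟨fun h1 => hxp1 (h1 ▸ h), Or.inl (Or.inr h), hp1D z h⟩
    · ext z
      simp only [mem_union, mem_insert, mem_sdiff]
      constructor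
      · rintro ⟨(h | h) | h, h2⟩
        · exact absurd (h ▸ hxD) h2
        · exact absurd (hp1D z h) h2
        · exact h
      · intro h
        exact ⟨Or.inr h, hp2D z h⟩
  · intro R hRm
    rw [mem_filter] at hRm
    obtain ⟨hRc, hxR⟩ := hRm
    congr 1
    ext z
    simp only [mem_union, mem_insert, mem_erase, mem_inter, mem_sdiff]
    constructor
    · intro h
      by_cases h1 : z = x
      · exact Or.inl (Or.inl h1)
      · by_cases h2 : z ∈ D
        · exact Or.inl (Or.inr ⟨h1, h, h2⟩)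
        · exact Or.inr ⟨h, h2⟩
    · rintro ((h | h) | h)
      · rw [h]; exact hxR
      · exact h.2.1
      · exact h.1

/-- The order of the union. -/
private theorem jam_card {C : Finset V} {φ : V → V} {x : V}
    {p : Finset V × Finset V} (hp : p ∈ cl C φ {x} ×ˢ (cl C φ {φ x}).filter (fun R => x ∉ R)) :
    1 + p.1.card ≤ (insert x p.1 ∪ p.2).card := by
  classical
  rw [mem_product] at hp
  have hp1' := mem_cl.mp hp.1
  have hxp1 : x ∉ p.1 := fun h => disjoint_left.mp hp1'.1 h (mem_union_right _ (mem_singleton_self _))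
  have h1 : (insert x p.1).card = p.1.card + 1 := card_insert_of_notMem hxp1
  have h2 : (insert x p.1).card ≤ (insert x p.1 ∪ p.2).card := card_le_card subset_union_left
  omega

/-- ROW J1 (MEDIUM). One step of Jamison's inequality: the mean does not decrease from `x` to `φ x`.
Plan. `y = φ x`. `D` = the set of all `z` such that for some `n`: `φ^[n] z = x` and `φ^[m] z ∉ C` for all `m < n`
(classical filter). `x ∈ D`, `D` is disjoint from `C`, `y ∉ D` (ranks), for `z ∈ D`, `z ≠ x`: `φ z ∈ D`; for `z ∉ C` with `φ z ∈ D`: `z ∈ D`.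
`Q = (cl C φ {y}).filter (x ∉ ·)`, `q = Q.card`. If `R ∈ cl C φ {y}` meets `D` then `x ∈ R` (follow `φ`; it never meets `y` before `x`,
ranks). The sets `R` with `x ∈ R` correspond to `cl C φ {x} ×ˢ Q` by `R ↦ ((R ∩ D).erase x, R \ D)`, inverse
`(R1, R2) ↦ insert x R1 ∪ R2` (elements of `cl C φ {x}` lie in `D`, elements of `Q` are disjoint from `D`). With `w = wt {x}`, `s = sz {x}`:
`wt {y} = q (1 + w)`, `sz {y} ≥ q (w + s)`. From hs (`2 s + w ≤ w w`, so `s ≤ w * w`): `s q (1 + w) ≤ q (w + s) w`. -/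
theorem jam {C : Finset V} {φ : V → V} {rk : V → ℕ} (hrk : ∀ x ∉ C, rk (φ x) < rk x) {x : V} (hx : x ∉ C)
    (hs : 2 * sz C φ {x} + wt C φ {x} ≤ wt C φ {x} * wt C φ {x}) :
    sz C φ {x} * wt C φ {φ x} ≤ sz C φ {φ x} * wt C φ {x} := by
  classical
  obtain ⟨q, hq⟩ : ∃ q, q = ((cl C φ {φ x}).filter (fun R => x ∉ R)).card := ⟨_, rfl⟩
  have hwt : wt C φ {φ x} = q * (1 + wt C φ {x}) := by
    have h1 := jam_sum hrk hx (fun _ => 1)
    rw [← card_eq_sum_ones, ← card_eq_sum_ones, card_product, ← hq] at h1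
    have h2 := card_filter_add_card_filter_not (s := cl C φ {φ x}) (fun R => x ∈ R)
    rw [h1, ← hq] at h2
    change (cl C φ {φ x}).card = _
    change (cl C φ {x}).card * q + q = _ at h2
    rw [← h2]
    change _ = q * (1 + (cl C φ {x}).card)
    ring
  have hsz : q * (wt C φ {x} + sz C φ {x}) ≤ sz C φ {φ x} := by
    have h1 := jam_sum hrk hx (fun R => R.card)
    have h2 : ∑ R ∈ (cl C φ {φ x}).filter (fun R => x ∈ R), R.card ≤ sz C φ {φ x} :=
      sum_le_sum_of_subset (filter_subset _ _)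
    have h3 : ∑ p ∈ cl C φ {x} ×ˢ (cl C φ {φ x}).filter (fun R => x ∉ R), (1 + p.1.card)
        ≤ ∑ p ∈ cl C φ {x} ×ˢ (cl C φ {φ x}).filter (fun R => x ∉ R), (insert x p.1 ∪ p.2).card :=
      sum_le_sum (fun p hp => jam_card hp)
    have h4 : ∑ p ∈ cl C φ {x} ×ˢ (cl C φ {φ x}).filter (fun R => x ∉ R), (1 + p.1.card)
        = q * (wt C φ {x} + sz C φ {x}) := by
      rw [sum_product]
      simp only [sum_const, smul_eq_mul, ← hq]
      rw [← mul_sum, sum_add_distrib, ← card_eq_sum_ones]
      rfl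
    rw [← h4]
    exact h3.trans (h1 ▸ h2)
  rw [hwt]
  obtain ⟨w, hw⟩ : ∃ w, w = wt C φ {x} := ⟨_, rfl⟩
  obtain ⟨s, hs'⟩ : ∃ s, s = sz C φ {x} := ⟨_, rfl⟩
  rw [← hw, ← hs'] at hs hsz ⊢
  have h5 : s ≤ w * w := by omega
  calc s * (q * (1 + w)) = q * (s + s * w) := by ring
    _ ≤ q * (w * w + s * w) := Nat.mul_le_mul_left _ (by omega)
    _ = q * (w + s) * w := by ring
    _ ≤ sz C φ {φ x} * w := Nat.mul_le_mul_right _ hsz

end Pool.Agent.LibOC52
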