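import Mathlib
import Pool.Agent.LibOC52.Defs

set_option autoImplicit false
set_option linter.unusedSectionVars false

namespace Pool.Agent.LibOC52

open Finset Pool.Agent.LibMST Pool.Agent.LibMSB

variable {V : Type*} [Fintype V] [DecidableEq V]

private theorem P1_root {C : Finset V} {φ : V → V} {rk : V → ℕ}
    (hrk : ∀ x ∉ C, rk (φ x) < rk x) {r : V → V} (hr1 : ∀ x ∈ C, r x = x)
    (hr2 : ∀ x ∉ C, r x = r (φ x)) {S R : Finset V} (hS : S ⊆ C) (hR : R ∈ cl C φ S) :
    ∀ n x, rk x < n → x ∈ R → r x ∈ S := by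
  rw [mem_cl] at hR
  intro n
  induction n with
  | zero => intro x hx; omega
  | succ n ih =>
    intro x hx hxR
    have hxC : x ∉ C := fun h => (Finset.disjoint_left.1 hR.1 hxR) (mem_union_left _ h)
    rw [hr2 x hxC]
    have h1 := hrk x hxC
    rcases mem_union.1 (hR.2 x hxR) with h2 | h2
    · rw [hr1 _ (hS h2)]
      exact h2
    · exact ih _ (by omega) h2

private theorem P1_sum {C : Finset V} {φ : V → V} {rk : V → ℕ}
    (hrk : ∀ x ∉ C, rk (φ x) < rk x) {S : Finset V} {h : V} (hS : S ⊆ C) (hh : h ∈ C)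
    (hn : h ∉ S) (g : Finset V → ℕ) :
    (∑ R ∈ cl C φ (insert h S), g R) = ∑ p ∈ cl C φ S ×ˢ cl C φ {h}, g (p.1 ∪ p.2) ∧
      ∀ p ∈ cl C φ S ×ˢ cl C φ {h}, Disjoint p.1 p.2 := by
  obtain ⟨r, hr1, hr2, -⟩ := exists_root hrk
  have hhC : ({h} : Finset V) ⊆ C := singleton_subset_iff.2 hh
  have hp1 : ∀ R1 ∈ cl C φ S, ∀ x ∈ R1, r x ≠ h := by
    intro R1 hR1 x hx he
    have h1 := P1_root hrk hr1 hr2 hS hR1 (rk x + 1) x (Nat.lt_succ_self _) hx
    rw [he] at h1
    exact hn h1
  have hp2 : ∀ R2 ∈ cl C φ {h}, ∀ x ∈ R2, r x = h := by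
    intro R2 hR2 x hx
    have h1 := P1_root hrk hr1 hr2 hhC hR2 (rk x + 1) x (Nat.lt_succ_self _) hx
    exact mem_singleton.1 h1
  constructor
  · refine Finset.sum_nbij' (fun R => (R.filter (fun x => r x ≠ h), R.filter (fun x => r x = h)))
      (fun p => p.1 ∪ p.2) ?_ ?_ ?_ ?_ ?_
    · intro R hR
      rw [mem_cl] at hR
      have hxC : ∀ x ∈ R, x ∉ C := fun x hx h1 =>
        (Finset.disjoint_left.1 hR.1 hx) (mem_union_left _ h1)
      rw [mem_product, mem_cl, mem_cl]
      refine ⟨⟨?_, ?_⟩, ?_, ?_⟩
      · rw [Finset.disjoint_left]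
        intro x hx h1
        have hx' := (mem_filter.1 hx).1
        rcases mem_union.1 h1 with h2 | h2
        · exact hxC x hx' h2
        · exact hxC x hx' (hS h2)
      · intro x hx
        obtain ⟨hx1, hx2⟩ := mem_filter.1 hx
        rw [hr2 x (hxC x hx1)] at hx2
        rcases mem_union.1 (hR.2 x hx1) with h2 | h2
        · rcases mem_insert.1 h2 with h3 | h3
          · rw [h3, hr1 h hh] at hx2
            exact absurd rfl hx2
          · exact mem_union_left _ h3
        · exact mem_union_right _ (mem_filter.2 ⟨h2, hx2⟩)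
      · rw [Finset.disjoint_left]
        intro x hx h1
        have hx' := (mem_filter.1 hx).1
        rcases mem_union.1 h1 with h2 | h2
        · exact hxC x hx' h2
        · exact hxC x hx' (hhC h2)
      · intro x hx
        obtain ⟨hx1, hx2⟩ := mem_filter.1 hx
        rw [hr2 x (hxC x hx1)] at hx2
        rcases mem_union.1 (hR.2 x hx1) with h2 | h2
        · rcases mem_insert.1 h2 with h3 | h3
          · exact mem_union_left _ (mem_singleton.2 h3)
          · rw [hr1 _ (hS h3)] at hx2
            rw [hx2] at h3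
            exact absurd h3 hn
        · exact mem_union_right _ (mem_filter.2 ⟨h2, hx2⟩)
    · rintro ⟨R1, R2⟩ hp
      rw [mem_product] at hp
      obtain ⟨hR1, hR2⟩ := hp
      rw [mem_cl] at hR1 hR2
      show R1 ∪ R2 ∈ cl C φ (insert h S)
      rw [mem_cl]
      refine ⟨?_, ?_⟩
      · rw [Finset.disjoint_left]
        intro x hx h1
        have hxC : x ∈ C := by
          rcases mem_union.1 h1 with h2 | h2
          · exact h2
          · rcases mem_insert.1 h2 with h3 | h3
            · rw [h3]; exact hh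
            · exact hS h3
        rcases mem_union.1 hx with h2 | h2
        · exact (Finset.disjoint_left.1 hR1.1 h2) (mem_union_left _ hxC)
        · exact (Finset.disjoint_left.1 hR2.1 h2) (mem_union_left _ hxC)
      · intro x hx
        rcases mem_union.1 hx with h2 | h2
        · rcases mem_union.1 (hR1.2 x h2) with h3 | h3
          · exact mem_union_left _ (mem_insert_of_mem h3)
          · exact mem_union_right _ (mem_union_left _ h3)
        · rcases mem_union.1 (hR2.2 x h2) with h3 | h3
          · exact mem_union_left _ (mem_insert.2 (Or.inl (mem_singleton.1 h3)))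
          · exact mem_union_right _ (mem_union_right _ h3)
    · intro R _
      ext x
      simp only [mem_union, mem_filter]
      tauto
    · rintro ⟨R1, R2⟩ hp
      rw [mem_product] at hp
      obtain ⟨hR1, hR2⟩ := hp
      have e1 := hp1 R1 hR1
      have e2 := hp2 R2 hR2
      refine Prod.ext ?_ ?_
      · ext x
        simp only [mem_union, mem_filter]
        constructor
        · rintro ⟨h3 | h3, h4⟩
          · exact h3
          · exact absurd (e2 x h3) h4
        · exact fun h3 => ⟨Or.inl h3, e1 x h3⟩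
      · ext x
        simp only [mem_union, mem_filter]
        constructor
        · rintro ⟨h3 | h3, h4⟩
          · exact absurd h4 (e1 x h3)
          · exact h3
        · exact fun h3 => ⟨Or.inr h3, e2 x h3⟩
    · intro R _
      congr 1
      ext x
      simp only [mem_union, mem_filter]
      tauto
  · rintro ⟨R1, R2⟩ hp
    rw [mem_product] at hp
    rw [Finset.disjoint_left]
    intro x hx hx'
    exact hp1 R1 hp.1 x hx (hp2 R2 hp.2 x hx')

/-- ROW P1 (MEDIUM). Product decomposition of the closed sets.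
Plan. `exists_root` gives `r`. If `R ∈ cl C φ S`, `S ⊆ C`, then `r x ∈ S` for all `x ∈ R` (induction on `rk x`:
`φ x ∈ S` gives `r x = r (φ x) = φ x`, else `φ x ∈ R`). The map `R ↦ (R.filter (r · ≠ h), R.filter (r · = h))` is a bijection
from `cl C φ (insert h S)` to `cl C φ S ×ˢ cl C φ {h}`, inverse `(R1, R2) ↦ R1 ∪ R2` (disjoint union, because `r` is in `S` on
`R1` and `h` on `R2`). Cards: `card_product`; orders: `card_union_of_disjoint`, `sum_product`. -/
theorem prod_cl {C : Finset V} {φ : V → V} {rk : V → ℕ} (hrk : ∀ x ∉ C, rk (φ x) < rk x)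
    {S : Finset V} {h : V} (hS : S ⊆ C) (hh : h ∈ C) (hn : h ∉ S) :
    wt C φ (insert h S) = wt C φ S * wt C φ {h} ∧
      sz C φ (insert h S) = sz C φ S * wt C φ {h} + wt C φ S * sz C φ {h} := by
  constructor
  · have h1 := (P1_sum hrk hS hh hn (fun _ => 1)).1
    unfold wt
    rw [card_eq_sum_ones, h1, ← card_eq_sum_ones, card_product]
  · obtain ⟨h1, h2⟩ := P1_sum hrk hS hh hn (fun R => R.card)
    unfold sz wt
    rw [h1]
    have h3 : ∑ p ∈ cl C φ S ×ˢ cl C φ {h}, (p.1 ∪ p.2).card =
        ∑ p ∈ cl C φ S ×ˢ cl C φ {h}, (p.1.card + p.2.card) :=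
      Finset.sum_congr rfl fun p hp => card_union_of_disjoint (h2 p hp)
    rw [h3, Finset.sum_product]
    simp only [Finset.sum_add_distrib, Finset.sum_const, smul_eq_mul]
    rw [Finset.sum_mul]
    congr 1
    exact Finset.sum_congr rfl fun x _ => Nat.mul_comm _ _

end Pool.Agent.LibOC52
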