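import Mathlib
import Pool.Agent.LibOC52.P1

set_option autoImplicit false
set_option linter.unusedSectionVars false

namespace Pool.Agent.LibOC52

open Finset Pool.Agent.LibMST Pool.Agent.LibMSB

variable {V : Type*} [Fintype V] [DecidableEq V]

private theorem cl_empty {C : Finset V} {φ : V → V} {rk : V → ℕ} (hrk : ∀ x ∉ C, rk (φ x) < rk x) :
    cl C φ ∅ = {∅} := by
  ext R
  rw [mem_singleton]
  constructor
  · intro hR
    rw [mem_cl] at hR
    by_contra hne
    obtain ⟨x, hx, hmin⟩ := exists_min_image R rk (nonempty_iff_ne_empty.mpr hne)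
    have h1 := hR.2 x hx
    rw [empty_union] at h1
    have h2 := hmin _ h1
    have hxC : x ∉ C := by
      intro hc
      exact disjoint_left.mp hR.1 hx (mem_union_left _ hc)
    have h3 := hrk x hxC
    omega
  · rintro rfl
    exact empty_cl C φ ∅

theorem wt_prod {C : Finset V} {φ : V → V} {rk : V → ℕ} (hrk : ∀ x ∉ C, rk (φ x) < rk x)
    {S : Finset V} (hS : S ⊆ C) :
    (wt C φ S : ℚ) = ∏ h ∈ S, (wt C φ {h} : ℚ) ∧
      (sz C φ S : ℚ) = (∏ h ∈ S, (wt C φ {h} : ℚ)) * ∑ h ∈ S, (sz C φ {h} : ℚ) / (wt C φ {h} : ℚ) := by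
  induction S using Finset.induction_on with
  | empty =>
    unfold wt sz
    rw [cl_empty hrk]
    simp
  | @insert h S hn ih =>
    have hSC : S ⊆ C := (subset_insert h S).trans hS
    obtain ⟨i1, i2⟩ := ih hSC
    obtain ⟨p1, p2⟩ := prod_cl hrk hSC (hS (mem_insert_self h S)) hn
    have hw : (wt C φ {h} : ℚ) ≠ 0 := by
      have := wt_pos C φ {h}
      positivity
    rw [prod_insert hn, sum_insert hn]
    constructor
    · rw [p1, Nat.cast_mul, i1, mul_comm]
    · rw [p2]
      push_cast
      rw [i1, i2]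
      field_simp
      ring

end Pool.Agent.LibOC52
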