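import Mathlib
import Pool.Agent.LibOC52.Defs

set_option autoImplicit false
set_option linter.unusedSectionVars false

namespace Pool.Agent.LibOC52

open Finset Pool.Agent.LibMST Pool.Agent.LibMSB

variable {V : Type*} [Fintype V] [DecidableEq V]

private theorem S1_erase {C : Finset V} {φ : V → V} {rk : V → ℕ}
    (hrk : ∀ x ∉ C, rk (φ x) < rk x) {S R : Finset V} (hR : R ∈ cl C φ S) (hne : R.Nonempty) :
    ∃ R' ∈ cl C φ S, R'.card + 1 = R.card := by
  obtain ⟨x, hx, hmax⟩ := R.exists_max_image rk hne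
  rw [mem_cl] at hR
  refine ⟨R.erase x, ?_, card_erase_add_one hx⟩
  rw [mem_cl]
  refine ⟨hR.1.mono_left (erase_subset x R), ?_⟩
  intro z hz
  have hzR : z ∈ R := mem_of_mem_erase hz
  have hzC : z ∉ C := by
    intro h
    exact (disjoint_left.mp hR.1 hzR) (mem_union_left _ h)
  rcases mem_union.mp (hR.2 z hzR) with h | h
  · exact mem_union_left _ h
  · refine mem_union_right _ (mem_erase.mpr ⟨?_, h⟩)
    intro he
    have h1 := hrk z hzC
    have h2 := hmax z hzR
    rw [he] at h1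
    omega

private theorem S1_desc {C : Finset V} {φ : V → V} {rk : V → ℕ}
    (hrk : ∀ x ∉ C, rk (φ x) < rk x) {S : Finset V} :
    ∀ n : ℕ, ∀ R ∈ cl C φ S, R.card = n → ∀ t ≤ n, ∃ R' ∈ cl C φ S, R'.card = t := by
  intro n
  induction n with
  | zero =>
    intro R hR hc t ht
    exact ⟨R, hR, by omega⟩
  | succ n ih =>
    intro R hR hc t ht
    rcases Nat.lt_or_ge n t with h | h
    · exact ⟨R, hR, by omega⟩
    · obtain ⟨R', hR', hc'⟩ := S1_erase hrk hR (card_pos.mp (by omega))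
      exact ih R' hR' (by omega) t h

private theorem S1_count {C : Finset V} {φ : V → V} {rk : V → ℕ}
    (hrk : ∀ x ∉ C, rk (φ x) < rk x) {S R : Finset V} (hR : R ∈ cl C φ S) :
    R.card ≤ ∑ R' ∈ cl C φ S, if R'.card < R.card then 1 else 0 := by
  rw [← card_filter]
  have h1 : range R.card ⊆ ((cl C φ S).filter (fun R' => R'.card < R.card)).image card := by
    intro t ht
    rw [mem_range] at ht
    obtain ⟨R', hR', hc⟩ := S1_desc hrk R.card R hR rfl t ht.le
    rw [mem_image]
    exact ⟨R', mem_filter.mpr ⟨hR', by omega⟩, hc⟩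
  have h2 := card_le_card h1
  rw [card_range] at h2
  exact h2.trans card_image_le

private theorem S1_pairs (K : Finset (Finset V)) :
    2 * (∑ R ∈ K, ∑ R' ∈ K, if R'.card < R.card then 1 else 0) + K.card ≤ K.card * K.card := by
  have h2 : (∑ R ∈ K, ∑ R' ∈ K, if R'.card < R.card then 1 else 0) =
      ∑ R ∈ K, ∑ R' ∈ K, if R.card < R'.card then 1 else 0 := sum_comm
  have h3 : (∑ R ∈ K, ∑ R' ∈ K, if R = R' then 1 else 0) = K.card := by
    rw [card_eq_sum_ones]
    refine sum_congr rfl (fun R hR => ?_)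
    rw [sum_ite_eq, if_pos hR]
  have h4 : (∑ R ∈ K, ∑ R' ∈ K, if R'.card < R.card then 1 else 0) +
      (∑ R ∈ K, ∑ R' ∈ K, if R.card < R'.card then 1 else 0) +
      (∑ R ∈ K, ∑ R' ∈ K, if R = R' then 1 else 0) ≤ ∑ R ∈ K, ∑ R' ∈ K, 1 := by
    rw [← sum_add_distrib, ← sum_add_distrib]
    refine sum_le_sum (fun R _ => ?_)
    rw [← sum_add_distrib, ← sum_add_distrib]
    refine sum_le_sum (fun R' _ => ?_)
    by_cases h : R = R'
    · subst h
      simp
    · rw [if_neg h]
      split_ifs <;> omega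
  have h5 : (∑ R ∈ K, ∑ R' ∈ K, 1) = K.card * K.card := by
    simp
  rw [h3, h5, ← h2] at h4
  omega

/-- ROW S1 (SHORT). `2 * sz + wt ≤ wt * wt`.
Plan. If `R ∈ cl` is not empty, erase `x ∈ R` with `rk x` maximal: `R.erase x ∈ cl` (for `z ∈ R.erase x` the vertex `φ z` is
not `x`, since `z ∉ C` and `rk (φ z) < rk z ≤ rk x`). So for every `R ∈ cl` and `t < R.card` some `R' ∈ cl` has `R'.card = t`;
hence `R.card ≤ #{R' ∈ cl : R'.card < R.card}`. Sum over `R`: `sz ≤ #{(R, R') : R'.card < R.card}`, and twice this number plus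
`wt` (the diagonal) is at most `wt * wt` (the pairs, the swapped pairs and the diagonal are disjoint subsets of `cl ×ˢ cl`). -/
theorem sizes {C : Finset V} {φ : V → V} {rk : V → ℕ} (hrk : ∀ x ∉ C, rk (φ x) < rk x) (S : Finset V) :
    2 * sz C φ S + wt C φ S ≤ wt C φ S * wt C φ S := by
  have h1 : sz C φ S ≤ ∑ R ∈ cl C φ S, ∑ R' ∈ cl C φ S, if R'.card < R.card then 1 else 0 :=
    sum_le_sum (fun R hR => S1_count hrk hR)
  have h2 := S1_pairs (cl C φ S)
  unfold wt
  omega

end Pool.Agent.LibOC52
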