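import Mathlib
import Pool.Agent.LibOC52.Defs

set_option autoImplicit false
set_option linter.unusedSectionVars false

namespace Pool.Agent.LibOC52

open Finset Pool.Agent.LibMST Pool.Agent.LibMSB

variable {V : Type*} [Fintype V] [DecidableEq V]

private theorem T1_into {C : Finset V} {φ : V → V} {rk : V → ℕ}
    (hrk : ∀ x ∉ C, rk (φ x) < rk x) {r : V} {S : Finset V} {F : Finset (Sym2 V)}
    (hg : Grow r S F) : ∀ (n : ℕ) (R : Finset V), R.card = n → R ∈ cl C φ S →
      Grow r (S ∪ R) (F ∪ R.image (fun x => s(x, φ x))) := by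
  intro n
  induction n with
  | zero =>
    intro R hR _
    rw [card_eq_zero] at hR
    subst hR
    simpa using hg
  | succ n ih =>
    intro R hR hcl
    rw [mem_cl] at hcl
    obtain ⟨hd, hφ⟩ := hcl
    have hne : R.Nonempty := by
      rw [← card_pos]; omega
    obtain ⟨x, hx, hmax⟩ := exists_max_image R rk hne
    have hout : ∀ y ∈ R, y ∉ C ∧ y ∉ S := by
      intro y hy
      have h := disjoint_left.mp hd hy
      rw [mem_union, not_or] at h
      exact h
    have hlt : ∀ y ∈ R, φ y ≠ x := by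
      intro y hy h
      have h1 := hrk y (hout y hy).1
      have h2 := hmax y hy
      rw [h] at h1
      omega
    have hstay : ∀ y ∈ R, φ y ∈ S ∪ R.erase x := by
      intro y hy
      have h := hφ y hy
      rw [mem_union] at h ⊢
      rcases h with h | h
      · exact Or.inl h
      · exact Or.inr (mem_erase.mpr ⟨hlt y hy, h⟩)
    have hcl' : R.erase x ∈ cl C φ S := by
      rw [mem_cl]
      exact ⟨hd.mono_left (erase_subset _ _), fun y hy => hstay y (mem_of_mem_erase hy)⟩
    have hcard : (R.erase x).card = n := by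
      rw [card_erase_of_mem hx, hR]; rfl
    have hG := ih _ hcard hcl'
    have hxn : x ∉ S ∪ R.erase x := by
      rw [mem_union, not_or]
      exact ⟨(hout x hx).2, notMem_erase x R⟩
    have hG2 := hG.step (hstay x hx) hxn
    have e1 : insert x (S ∪ R.erase x) = S ∪ R := by
      rw [← union_insert, insert_erase hx]
    have e2 : insert s(φ x, x) (F ∪ (R.erase x).image (fun x => s(x, φ x))) =
        F ∪ R.image (fun x => s(x, φ x)) := by
      conv_rhs => rw [← insert_erase hx, image_insert]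
      rw [union_insert, Sym2.eq_swap]
    rw [e1, e2] at hG2
    exact hG2

private theorem T1_onto {C : Finset V} {EC : Finset (Sym2 V)} {φ : V → V}
    (hEC : ∀ e ∈ EC, ∀ x ∈ e, x ∈ C) {r : V} (hr : r ∈ C) {U : Finset V} {F : Finset (Sym2 V)}
    (hg : Grow r U F) (hF : F ⊆ ed C EC φ) :
    Grow r (U ∩ C) (F ∩ EC) ∧ (∀ x ∈ U, x ∉ C → φ x ∈ U) ∧
      F ∩ EC ∪ (U \ C).image (fun x => s(x, φ x)) = F := by
  induction hg with
  | base =>
    refine ⟨?_, ?_, ?_⟩
    · have e1 : ({r} : Finset V) ∩ C = {r} := inter_eq_left.mpr (singleton_subset_iff.mpr hr)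
      rw [e1, empty_inter]
      exact Grow.base
    · intro x hx hxC
      rw [mem_singleton] at hx
      subst hx
      exact absurd hr hxC
    · have e2 : ({r} : Finset V) \ C = ∅ := sdiff_eq_empty_iff_subset.mpr (singleton_subset_iff.mpr hr)
      rw [e2]
      simp
  | @step U B x w h hx hw ih =>
    obtain ⟨i1, i2, i3⟩ := ih ((subset_insert _ _).trans hF)
    have hmem : s(x, w) ∈ ed C EC φ := hF (mem_insert_self _ _)
    unfold ed at hmem
    rw [mem_union, mem_image] at hmem
    rcases hmem with hmem | ⟨z, hz, hzx⟩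
    · have hxC : x ∈ C := hEC _ hmem x (Sym2.mem_mk_left x w)
      have hwC : w ∈ C := hEC _ hmem w (Sym2.mem_mk_right x w)
      refine ⟨?_, ?_, ?_⟩
      · rw [insert_inter_of_mem hwC, insert_inter_of_mem hmem]
        exact i1.step (mem_inter.mpr ⟨hx, hxC⟩) (fun h => hw (mem_of_mem_inter_left h))
      · intro y hy hyC
        rw [mem_insert] at hy
        rcases hy with rfl | hy
        · exact absurd hwC hyC
        · exact mem_insert_of_mem (i2 y hy hyC)
      · rw [insert_inter_of_mem hmem, insert_sdiff_of_mem _ hwC, insert_union, i3]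
    · rw [mem_compl] at hz
      rw [Sym2.eq_iff] at hzx
      rcases hzx with ⟨h1, h2⟩ | ⟨h1, h2⟩
      · exfalso
        subst h1
        exact hw (h2 ▸ i2 _ hx hz)
      · subst h1
        have hnot : s(x, z) ∉ EC := fun he => hz (hEC _ he z (Sym2.mem_mk_right x z))
        refine ⟨?_, ?_, ?_⟩
        · rw [insert_inter_of_notMem hz, insert_inter_of_notMem hnot]
          exact i1
        · intro y hy hyC
          rw [mem_insert] at hy
          rcases hy with rfl | hy
          · rw [h2]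
            exact mem_insert_of_mem hx
          · exact mem_insert_of_mem (i2 y hy hyC)
        · rw [insert_inter_of_notMem hnot, insert_sdiff_of_notMem _ hz, image_insert,
            union_insert, i3, h2, Sym2.eq_swap]

/-- ROW T1 (MEDIUM+). The trees which meet the core: a tree of the core and a closed set.
Plan. Bijection `(S, F), R ↦ (S ∪ R, F ∪ R.image (fun x => s(x, φ x)))`, inverse `(U, F) ↦ (U ∩ C, F ∩ EC), U \ C`; use
`Finset.sum_sigma'` and `Finset.sum_nbij'` (or `sum_bij'`). (1) INTO: for `(S, F) ∈ TP EC`, `S ⊆ C`, `R ∈ cl C φ S`: grow `R` in the order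
of `rk` (induction on `R.card`: erase `x ∈ R` of maximal rank, `R.erase x ∈ cl C φ S`, `φ x ∈ S ∪ R.erase x`, `Grow.step`; the edge is
`s(φ x, x)`). (2) ONTO: for `Grow r U F`, `F ⊆ ed C EC φ`, `r ∈ C` (choose the root in `C` by `Grow.reroot`), induction on Grow gives:
`Grow r (U ∩ C) (F ∩ EC)`, `U \ C ∈ cl C φ (U ∩ C)`, `F = F ∩ EC ∪ (U \ C).image (fun x => s(x, φ x))`: a new edge `s(x, w)`, `x ∈ U`, `w ∉ U`, is in
`EC` (then `x`, `w ∈ C`) or is `s(z, φ z)` with `z ∉ C`, and `z = w` (if `z = x` then `φ x = w ∉ U`, impossible: `x ∈ U \ C` has `φ x ∈ U`).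
Edges `s(x, φ x)`, `x ∉ C`, are not in `EC` (hEC), and `x` is determined by the edge (ranks). -/
theorem sum_meet {C : Finset V} {EC : Finset (Sym2 V)} {φ : V → V} {rk : V → ℕ}
    (hrk : ∀ x ∉ C, rk (φ x) < rk x) (hEC : ∀ e ∈ EC, ∀ x ∈ e, x ∈ C) (g : ℕ → ℕ → ℚ) :
    ∑ p ∈ (TP (ed C EC φ)).filter (fun p => ¬ Disjoint p.1 C), g p.1.card (p.2 ∩ EC).card =
      ∑ p ∈ tc C EC, ∑ R ∈ cl C φ p.1, g (p.1.card + R.card) p.2.card := by
  rw [Finset.sum_sigma']
  refine Finset.sum_nbij' (fun p => ⟨(p.1 ∩ C, p.2 ∩ EC), p.1 \ C⟩)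
    (fun q => (q.1.1 ∪ q.2, q.1.2 ∪ q.2.image (fun x => s(x, φ x)))) ?_ ?_ ?_ ?_ ?_
  · intro p hp
    rw [mem_filter, mem_TP] at hp
    obtain ⟨⟨hsub, r, hg⟩, hnd⟩ := hp
    rw [not_disjoint_iff] at hnd
    obtain ⟨c, hc1, hc2⟩ := hnd
    obtain ⟨h1, h2, h3⟩ := T1_onto hEC hc2 (hg.reroot c hc1) hsub
    rw [mem_sigma, mem_tc, mem_cl]
    refine ⟨⟨⟨inter_subset_right, c, h1⟩, inter_subset_right⟩, ?_, ?_⟩
    · rw [disjoint_left]
      intro x hx hx2
      rw [mem_sdiff] at hx
      rw [mem_union, mem_inter] at hx2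
      rcases hx2 with hx2 | hx2
      · exact hx.2 hx2
      · exact hx.2 hx2.2
    · intro x hx
      rw [mem_sdiff] at hx
      have h4 := h2 x hx.1 hx.2
      rw [mem_union, mem_inter, mem_sdiff]
      by_cases h5 : φ x ∈ C
      · exact Or.inl ⟨h4, h5⟩
      · exact Or.inr ⟨h4, h5⟩
  · rintro ⟨⟨S, F⟩, R⟩ hq
    rw [mem_sigma, mem_tc] at hq
    obtain ⟨⟨⟨hF, r, hg⟩, hS⟩, hR⟩ := hq
    have hG := T1_into hrk hg R.card R rfl hR
    rw [mem_cl] at hR
    rw [mem_filter, mem_TP]
    refine ⟨⟨?_, r, hG⟩, ?_⟩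
    · apply union_subset (hF.trans subset_union_left)
      intro e he
      rw [mem_image] at he
      obtain ⟨x, hx, rfl⟩ := he
      refine subset_union_right (mem_image_of_mem _ ?_)
      rw [mem_compl]
      intro hxC
      exact disjoint_left.mp hR.1 hx (mem_union_left _ hxC)
    · rw [not_disjoint_iff]
      exact ⟨r, mem_union_left _ hg.root_mem, hS hg.root_mem⟩
  · intro p hp
    rw [mem_filter, mem_TP] at hp
    obtain ⟨⟨hsub, r, hg⟩, hnd⟩ := hp
    rw [not_disjoint_iff] at hnd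
    obtain ⟨c, hc1, hc2⟩ := hnd
    obtain ⟨h1, h2, h3⟩ := T1_onto hEC hc2 (hg.reroot c hc1) hsub
    refine Prod.ext ?_ h3
    ext x
    simp only [mem_union, mem_inter, mem_sdiff]
    tauto
  · rintro ⟨⟨S, F⟩, R⟩ hq
    rw [mem_sigma, mem_tc, mem_cl] at hq
    obtain ⟨⟨⟨hF, r, hg⟩, hS⟩, hd, hφ⟩ := hq
    have hRC : ∀ x ∈ R, x ∉ C := fun x hx hxC => disjoint_left.mp hd hx (mem_union_left _ hxC)
    have e1 : (S ∪ R) ∩ C = S := by
      ext x
      rw [mem_inter, mem_union]
      constructor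
      · rintro ⟨h | h, hC⟩
        · exact h
        · exact absurd hC (hRC x h)
      · exact fun h => ⟨Or.inl h, hS h⟩
    have e2 : (F ∪ R.image (fun x => s(x, φ x))) ∩ EC = F := by
      ext e
      rw [mem_inter, mem_union]
      constructor
      · rintro ⟨h | h, hC⟩
        · exact h
        · rw [mem_image] at h
          obtain ⟨x, hx, rfl⟩ := h
          exact absurd (hEC _ hC x (Sym2.mem_mk_left _ _)) (hRC x hx)
      · exact fun h => ⟨Or.inl h, hF h⟩
    have e3 : (S ∪ R) \ C = R := by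
      ext x
      rw [mem_sdiff, mem_union]
      constructor
      · rintro ⟨h | h, hC⟩
        · exact absurd (hS h) hC
        · exact h
      · exact fun h => ⟨Or.inr h, hRC x h⟩
    show (⟨((S ∪ R) ∩ C, (F ∪ R.image (fun x => s(x, φ x))) ∩ EC), (S ∪ R) \ C⟩ :
      (_ : Finset V × Finset (Sym2 V)) × Finset V) = ⟨(S, F), R⟩
    rw [e1, e2, e3]
  · intro p _
    show g p.1.card (p.2 ∩ EC).card = g ((p.1 ∩ C).card + (p.1 \ C).card) (p.2 ∩ EC).card
    rw [card_inter_add_card_sdiff]

end Pool.Agent.LibOC52
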