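import Mathlib
import Pool.Agent.LibOC52.Defs

set_option autoImplicit false
set_option linter.unusedSectionVars false

namespace Pool.Agent.LibOC52

open Finset Pool.Agent.LibMST Pool.Agent.LibMSB

variable {V : Type*} [Fintype V] [DecidableEq V]

private theorem T2_grow {C : Finset V} {φ : V → V} {rk : V → ℕ}
    (hrk : ∀ x ∉ C, rk (φ x) < rk x) (t : V) : ∀ (n : ℕ) (R : Finset V), R.card = n →
    R ∈ cl C φ {t} → Grow t (insert t R) (R.image (fun x => s(x, φ x))) := by
  intro n
  induction n with
  | zero =>
    intro R hR _
    rw [card_eq_zero] at hR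
    rw [hR, image_empty, insert_empty_eq]
    exact Grow.base
  | succ n ih =>
    intro R hR hcl
    rw [mem_cl] at hcl
    obtain ⟨hdis, hφ⟩ := hcl
    have hne : R.Nonempty := by
      rw [← card_pos]
      omega
    obtain ⟨x, hx, hmax⟩ := exists_max_image R rk hne
    have hC : ∀ y ∈ R, y ∉ C := by
      intro y hy hyC
      exact disjoint_left.mp hdis hy (mem_union_left _ hyC)
    have hT : ∀ y ∈ R, y ≠ t := by
      intro y hy hyt
      exact disjoint_left.mp hdis hy (mem_union_right _ (by rw [hyt]; exact mem_singleton_self t))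
    have h1 : R.erase x ∈ cl C φ {t} := by
      rw [mem_cl]
      refine ⟨disjoint_of_subset_left (erase_subset _ _) hdis, ?_⟩
      intro y hy
      have hyR := mem_of_mem_erase hy
      have h2 := hφ y hyR
      rw [mem_union] at h2 ⊢
      rcases h2 with h2 | h2
      · exact Or.inl h2
      · right
        rw [mem_erase]
        refine ⟨?_, h2⟩
        intro h3
        have h4 := hrk y (hC y hyR)
        rw [h3] at h4
        have h5 := hmax y hyR
        omega
    have h2 := ih (R.erase x) (by rw [card_erase_of_mem hx, hR]; rfl) h1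
    have h3 : φ x ∈ insert t (R.erase x) := by
      have h4 := hφ x hx
      rw [mem_union, mem_singleton] at h4
      rw [mem_insert]
      rcases h4 with h4 | h4
      · exact Or.inl h4
      · right
        rw [mem_erase]
        refine ⟨?_, h4⟩
        intro h5
        have h6 := hrk x (hC x hx)
        rw [h5] at h6
        exact lt_irrefl _ h6
    have h4 : x ∉ insert t (R.erase x) := by
      rw [mem_insert]
      push Not
      exact ⟨hT x hx, notMem_erase x R⟩
    have h5 := h2.step h3 h4
    rw [Finset.insert_comm, insert_erase hx] at h5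
    have h6 : insert s(φ x, x) ((R.erase x).image (fun x => s(x, φ x))) =
        R.image (fun x => s(x, φ x)) := by
      rw [Sym2.eq_swap]
      rw [← image_insert (f := fun x => s(x, φ x)), insert_erase hx]
    rw [h6] at h5
    exact h5

private theorem T2_top {C : Finset V} {φ : V → V} {rk : V → ℕ}
    (hrk : ∀ x ∉ C, rk (φ x) < rk x) {t t' : V} {R R' : Finset V} (hR : R ∈ cl C φ {t})
    (hR' : R' ∈ cl C φ {t'}) (h : insert t R = insert t' R') : t = t' := by
  obtain ⟨m, hm, hmin⟩ := exists_min_image (insert t R) rk (insert_nonempty t R)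
  have key : ∀ (s : V) (S : Finset V), S ∈ cl C φ {s} → m ∈ insert s S →
      (∀ x ∈ insert s S, rk m ≤ rk x) → m = s := by
    intro s S hS hmS hmm
    by_contra hne
    rw [mem_cl] at hS
    have h1 : m ∈ S := by
      rw [mem_insert] at hmS
      exact hmS.resolve_left hne
    have h2 := hS.2 m h1
    have h3 : φ m ∈ insert s S := by
      rw [mem_union, mem_singleton] at h2
      rw [mem_insert]
      exact h2
    have h4 := hmm _ h3
    have h5 : m ∉ C := fun hC => disjoint_left.mp hS.1 h1 (mem_union_left _ hC)
    have h6 := hrk m h5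
    omega
  have e1 := key t R hR hm hmin
  have e2 := key t' R' hR' (by rw [← h]; exact hm) (by rw [← h]; exact hmin)
  rw [← e1, ← e2]

private theorem T2_onto {C : Finset V} {EC : Finset (Sym2 V)} {φ : V → V}
    (hEC : ∀ e ∈ EC, ∀ x ∈ e, x ∈ C) {r : V} {U : Finset V} {F : Finset (Sym2 V)}
    (hg : Grow r U F) : Disjoint U C → F ⊆ ed C EC φ →
    ∃ t, t ∉ C ∧ ∃ R ∈ cl C φ {t}, insert t R = U ∧ R.image (fun x => s(x, φ x)) = F := by
  induction hg with
  | base =>
    intro hU _
    refine ⟨r, ?_, ∅, empty_cl _ _ _, ?_, ?_⟩
    · intro hrC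
      exact disjoint_left.mp hU (mem_singleton_self r) hrC
    · rw [insert_empty_eq]
    · rw [image_empty]
  | @step U F x w h hx hw ih =>
    intro hU hF
    have hU0 : Disjoint U C := disjoint_of_subset_left (subset_insert _ _) hU
    have hwC : w ∉ C := fun hC => disjoint_left.mp hU (mem_insert_self w U) hC
    obtain ⟨t, htC, R, hR, hUR, hFR⟩ := ih hU0 ((subset_insert _ _).trans hF)
    have hxC : x ∉ C := fun hC => disjoint_left.mp hU0 hx hC
    have hR' := hR
    rw [mem_cl] at hR
    obtain ⟨hdis, hφ⟩ := hR
    have hwt : w ≠ t := by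
      rintro rfl
      exact hw (by rw [← hUR]; exact mem_insert_self _ _)
    have hwR : w ∉ R := fun h1 => hw (by rw [← hUR]; exact mem_insert_of_mem h1)
    have hRC : ∀ y ∈ R, y ∉ C := fun y hy hyC => disjoint_left.mp hdis hy (mem_union_left _ hyC)
    have htR : t ∉ R := fun h1 =>
      disjoint_left.mp hdis h1 (mem_union_right _ (mem_singleton_self t))
    have he := hF (mem_insert_self s(x, w) F)
    unfold ed at he
    rw [mem_union, mem_image] at he
    rcases he with he | ⟨z, hz, hze⟩
    · exact absurd (hEC _ he x (Sym2.mem_mk_left x w)) hxC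
    · rw [Sym2.eq_iff] at hze
      rcases hze with ⟨h1, h2⟩ | ⟨h1, h2⟩
      · -- z = x and φ x = w
        subst h1
        have hzt : z = t := by
          by_contra hne
          have hzR : z ∈ R := by
            rw [← hUR, mem_insert] at hx
            exact hx.resolve_left hne
          have h3 := hφ z hzR
          rw [h2, mem_union, mem_singleton] at h3
          rcases h3 with h3 | h3
          · exact hwt h3
          · exact hwR h3
        subst hzt
        refine ⟨w, hwC, insert z R, ?_, ?_, ?_⟩
        · rw [mem_cl]
          refine ⟨?_, ?_⟩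
          · rw [disjoint_left]
            intro y hy hy2
            rw [mem_union, mem_singleton] at hy2
            rcases hy2 with hy2 | hy2
            · rw [mem_insert] at hy
              rcases hy with hy | hy
              · rw [hy] at hy2
                exact htC hy2
              · exact hRC y hy hy2
            · rw [hy2, hUR] at hy
              exact hw hy
          · intro y hy
            rw [mem_insert] at hy
            rcases hy with hy | hy
            · rw [hy, h2, mem_union]
              exact Or.inl (mem_singleton_self w)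
            · have h3 := hφ y hy
              rw [mem_union, mem_singleton] at h3
              rw [mem_union, mem_insert]
              exact Or.inr h3
        · rw [hUR]
        · rw [image_insert, h2, hFR]
      · -- z = w and φ w = x
        subst h1
        refine ⟨t, htC, insert z R, ?_, ?_, ?_⟩
        · rw [mem_cl]
          refine ⟨?_, ?_⟩
          · rw [disjoint_left]
            intro y hy hy2
            rw [mem_insert] at hy
            rcases hy with hy | hy
            · rw [hy, mem_union, mem_singleton] at hy2
              rcases hy2 with hy2 | hy2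
              · exact hwC hy2
              · exact hwt hy2
            · exact disjoint_left.mp hdis hy hy2
          · intro y hy
            rw [mem_insert] at hy
            rcases hy with hy | hy
            · rw [hy, h2]
              rw [← hUR, mem_insert] at hx
              rw [mem_union, mem_singleton, mem_insert]
              rcases hx with hx | hx
              · exact Or.inl hx
              · exact Or.inr (Or.inr hx)
            · have h3 := hφ y hy
              rw [mem_union] at h3
              rw [mem_union, mem_insert]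
              rcases h3 with h3 | h3
              · exact Or.inl h3
              · exact Or.inr (Or.inr h3)
        · rw [Finset.insert_comm, hUR]
        · rw [image_insert, h2, hFR, Sym2.eq_swap]

/-- ROW T2 (MEDIUM). The trees which avoid the core: top `t` and a closed set.
Plan. Bijection `(t, R) ↦ (insert t R, R.image (fun x => s(x, φ x)))` from `t ∈ Cᶜ`, `R ∈ cl C φ {t}`. (1) INTO: grow `R` in the order of `rk`
(induction on `R.card`: erase `x ∈ R` of maximal rank, `R.erase x ∈ cl C φ {t}`, `φ x ∈ {t} ∪ R.erase x`, `Grow.step` with root `t`); no edge is in `EC`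
(`x ∉ C`, hEC), so the second number is `0`. (2) INJECTIVE: `t` is the only vertex of `insert t R` whose `φ`-image is not in the set
(it is the vertex of minimal rank: all others have `φ x` in the set with smaller rank). (3) ONTO: induction on `Grow r U F` with `U` disjoint from `C`,
`F ⊆ ed C EC φ`: there are `t ∈ U` and `R = U.erase t ∈ cl C φ {t}` with `F = R.image (fun x => s(x, φ x))`: the new edge `s(x, w)` is
`s(z, φ z)` with `z = w` (then `w` joins `R`) or `z = x`, `φ x = w`; then `x = t` (otherwise `φ x ∈ U`), the new top is `w` and `R` becomes `insert x R`. -/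
theorem sum_avoid {C : Finset V} {EC : Finset (Sym2 V)} {φ : V → V} {rk : V → ℕ}
    (hrk : ∀ x ∉ C, rk (φ x) < rk x) (hEC : ∀ e ∈ EC, ∀ x ∈ e, x ∈ C) (g : ℕ → ℕ → ℚ) :
    ∑ p ∈ (TP (ed C EC φ)).filter (fun p => Disjoint p.1 C), g p.1.card (p.2 ∩ EC).card =
      ∑ t ∈ Cᶜ, ∑ R ∈ cl C φ {t}, g (1 + R.card) 0 := by
  have hsum : ∑ t ∈ Cᶜ, ∑ R ∈ cl C φ {t}, g (1 + R.card) 0 =
      ∑ q ∈ (Cᶜ).sigma (fun t => cl C φ {t}), g (1 + q.2.card) 0 := by
    rw [Finset.sum_sigma]
  rw [hsum]
  symm
  refine Finset.sum_bij (fun q _ => (insert q.1 q.2, q.2.image (fun x => s(x, φ x)))) ?_ ?_ ?_ ?_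
  · rintro ⟨t, R⟩ hq
    rw [mem_sigma] at hq
    obtain ⟨ht, hR⟩ := hq
    simp only at ht hR ⊢
    rw [mem_compl] at ht
    rw [mem_filter, mem_TP]
    have hR' := hR
    rw [mem_cl] at hR'
    have hRC : ∀ y ∈ R, y ∉ C := fun y hy hyC =>
      disjoint_left.mp hR'.1 hy (mem_union_left _ hyC)
    refine ⟨⟨?_, t, T2_grow hrk t _ R rfl hR⟩, ?_⟩
    · intro e he
      rw [mem_image] at he
      obtain ⟨x, hx, rfl⟩ := he
      unfold ed
      rw [mem_union, mem_image]
      exact Or.inr ⟨x, by rw [mem_compl]; exact hRC x hx, rfl⟩
    · rw [disjoint_left]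
      intro y hy
      rw [mem_insert] at hy
      rcases hy with hy | hy
      · rw [hy]
        exact ht
      · exact hRC y hy
  · rintro ⟨t, R⟩ hq ⟨t', R'⟩ hq' h
    rw [mem_sigma] at hq hq'
    simp only [Prod.mk.injEq] at hq hq' h
    have h1 := T2_top hrk hq.2 hq'.2 h.1
    subst h1
    have h2 := hq.2
    have h3 := hq'.2
    rw [mem_cl] at h2 h3
    have h4 : t ∉ R := fun h5 =>
      disjoint_left.mp h2.1 h5 (mem_union_right _ (mem_singleton_self t))
    have h5 : t ∉ R' := fun h6 =>
      disjoint_left.mp h3.1 h6 (mem_union_right _ (mem_singleton_self t))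
    have h6 : R = R' := by
      rw [← erase_insert h4, ← erase_insert h5, h.1]
    rw [h6]
  · rintro ⟨U, F⟩ hp
    rw [mem_filter, mem_TP] at hp
    obtain ⟨⟨hF, r, hg⟩, hU⟩ := hp
    obtain ⟨t, ht, R, hR, h1, h2⟩ := T2_onto hEC hg hU hF
    refine ⟨⟨t, R⟩, ?_, ?_⟩
    · rw [mem_sigma]
      exact ⟨by rw [mem_compl]; exact ht, hR⟩
    · simp only
      rw [h1, h2]
  · rintro ⟨t, R⟩ hq
    rw [mem_sigma] at hq
    obtain ⟨ht, hR⟩ := hq
    simp only at ht hR ⊢
    rw [mem_cl] at hR
    have h4 : t ∉ R := fun h5 =>
      disjoint_left.mp hR.1 h5 (mem_union_right _ (mem_singleton_self t))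
    have h5 : R.image (fun x => s(x, φ x)) ∩ EC = ∅ := by
      rw [← disjoint_iff_inter_eq_empty, disjoint_left]
      intro e he heC
      rw [mem_image] at he
      obtain ⟨x, hx, rfl⟩ := he
      exact disjoint_left.mp hR.1 hx
        (mem_union_left _ (hEC _ heC x (Sym2.mem_mk_left x (φ x))))
    rw [card_insert_of_notMem h4, h5, card_empty, add_comm]

end Pool.Agent.LibOC52
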