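import Mathlib
import Pool.Agent.LibOC52.A
import Pool.Agent.LibOC52.P2
import Pool.Agent.LibOC52.S1
import Pool.Agent.LibOC52.J1
import Pool.Agent.LibOC52.T1
import Pool.Agent.LibOC52.T2

set_option autoImplicit false
set_option linter.unusedSectionVars false

namespace Pool.Agent.LibOC52

open Finset Pool.Agent.LibMST Pool.Agent.LibMSB

variable {V : Type*} [Fintype V] [DecidableEq V]

private theorem att_of_sz {C : Finset V} {φ : V → V} {rk : V → ℕ} (hrk : ∀ x ∉ C, rk (φ x) < rk x) {v : V}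
    (hv : sz C φ {v} ≠ 0) : ∃ x ∉ C, φ x = v := by
  unfold sz at hv
  obtain ⟨R, hR, hne⟩ := exists_ne_zero_of_sum_ne_zero hv
  have hRne : R.Nonempty := card_pos.mp (Nat.pos_of_ne_zero hne)
  rw [mem_cl] at hR
  obtain ⟨x, hx, hmin⟩ := exists_min_image R rk hRne
  have hxC : x ∉ C := fun hc => disjoint_left.mp hR.1 hx (mem_union_left _ hc)
  have h1 := hR.2 x hx
  rw [mem_union, mem_singleton] at h1
  rcases h1 with h1 | h1
  · exact ⟨x, hxC, h1⟩
  · have h2 := hmin _ h1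
    have h3 := hrk x hxC
    omega

/-- Jamison's inequality: the mean at `x` is at most the mean at the root of `x`. -/
private theorem jam_root {C : Finset V} {φ : V → V} {rk : V → ℕ} (hrk : ∀ x ∉ C, rk (φ x) < rk x)
    {r : V → V} (hr1 : ∀ x ∈ C, r x = x) (hr2 : ∀ x ∉ C, r x = r (φ x)) :
    ∀ n x, rk x < n → (sz C φ {x} : ℚ) * wt C φ {r x} ≤ sz C φ {r x} * wt C φ {x} := by
  intro n
  induction n with
  | zero => intro x hx; omega
  | succ n ih =>
    intro x hx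
    by_cases hxC : x ∈ C
    · rw [hr1 x hxC]
    · have h1 := hrk x hxC
      have h2 := ih (φ x) (by omega)
      rw [← hr2 x hxC] at h2
      have h3 := jam hrk hxC (sizes hrk {x})
      have h3' : (sz C φ {x} : ℚ) * wt C φ {φ x} ≤ sz C φ {φ x} * wt C φ {x} := by exact_mod_cast h3
      have p1 : (0 : ℚ) < wt C φ {x} := by exact_mod_cast wt_pos C φ {x}
      have p2 : (0 : ℚ) < wt C φ {φ x} := by exact_mod_cast wt_pos C φ {φ x}
      have p3 : (0 : ℚ) < wt C φ {r x} := by exact_mod_cast wt_pos C φ {r x}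
      have h4 : ((sz C φ {x} : ℚ) * wt C φ {r x}) * wt C φ {φ x} ≤ (sz C φ {r x} * wt C φ {x}) * wt C φ {φ x} := by
        calc ((sz C φ {x} : ℚ) * wt C φ {r x}) * wt C φ {φ x}
            = ((sz C φ {x} : ℚ) * wt C φ {φ x}) * wt C φ {r x} := by ring
          _ ≤ (sz C φ {φ x} * wt C φ {x}) * wt C φ {r x} := mul_le_mul_of_nonneg_right h3' p3.le
          _ = ((sz C φ {φ x} : ℚ) * wt C φ {r x}) * wt C φ {x} := by ring
          _ ≤ (sz C φ {r x} * wt C φ {φ x}) * wt C φ {x} := mul_le_mul_of_nonneg_right h2 p1.le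
          _ = _ := by ring
      exact le_of_mul_le_mul_right h4 p2

/-- Some core edge has positive covariance with the order. -/
theorem cov_pos {C : Finset V} {EC : Finset (Sym2 V)} {φ : V → V} {rk : V → ℕ}
    (hrk : ∀ x ∉ C, rk (φ x) < rk x) (hEC : ∀ e ∈ EC, ∀ x ∈ e, x ∈ C) (hl : ∀ e ∈ EC, ¬ e.IsDiag)
    (hne : EC.Nonempty) (hc : Cn EC C) (hb : ∀ e ∈ EC, Cn (EC.erase e) C) {D : V → ℕ}
    (hD : ∀ v ∈ C, (∃ x ∉ C, φ x = v) → Nx C EC v (D v) ∧ 1 ≤ D v)
    (hleaf : ∀ T ∈ tc C EC, ∑ v ∈ C.filter (fun v => (∃ x ∉ C, φ x = v) ∧ Lf T v), (1 : ℚ) / (D v : ℚ) ≤ 4) :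
    ∃ e ∈ EC, 0 < cov (ed C EC φ) e := by
  classical
  obtain ⟨r, hr1, hr2, hr3⟩ := exists_root hrk
  obtain ⟨w, hw⟩ : ∃ w : V → ℚ, ∀ v, w v = (wt C φ {v} : ℚ) := ⟨_, fun _ => rfl⟩
  obtain ⟨β, hβ⟩ : ∃ β : V → ℚ, ∀ v, β v = (sz C φ {v} : ℚ) / (wt C φ {v} : ℚ) := ⟨_, fun _ => rfl⟩
  have hw1 : ∀ v, 1 ≤ w v := fun v => by
    rw [hw]; exact_mod_cast wt_pos C φ {v}
  have hβ0 : ∀ v, 0 ≤ β v := fun v => by rw [hβ]; positivity
  have hβ2 : ∀ v, β v ≤ w v / 2 := by
    intro v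
    have h1 := sizes hrk {v}
    have h2 : 2 * (sz C φ {v} : ℚ) + wt C φ {v} ≤ wt C φ {v} * wt C φ {v} := by exact_mod_cast h1
    have p1 := hw1 v
    rw [hw] at p1
    rw [hβ, hw, div_le_iff₀ (by linarith)]
    linarith
  have hWprod : ∀ T ∈ tc C EC, (wt C φ T.1 : ℚ) = ∏ v ∈ T.1, w v := by
    intro T hT
    rw [mem_tc] at hT
    rw [(wt_prod hrk hT.2).1]
    exact prod_congr rfl (fun v _ => (hw v).symm)
  have hSprod : ∀ T ∈ tc C EC, (sz C φ T.1 : ℚ) = (∏ v ∈ T.1, w v) * ∑ v ∈ T.1, β v := by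
    intro T hT
    rw [mem_tc] at hT
    rw [(wt_prod hrk hT.2).2]
    congr 1
    · exact prod_congr rfl (fun v _ => (hw v).symm)
    · exact sum_congr rfl (fun v _ => (hβ v).symm)
  have hedge : ∀ T ∈ tc C EC, (T.2.card : ℚ) = (T.1.card : ℚ) - 1 := by
    intro T hT
    rw [mem_tc] at hT
    obtain ⟨⟨_, r', hg⟩, _⟩ := hT
    have h := hg.card_eq
    rw [← h]
    push_cast
    ring
  obtain ⟨W, hW⟩ : ∃ W : Finset V × Finset (Sym2 V) → ℚ, ∀ T, W T = ∏ v ∈ T.1, w v := ⟨_, fun _ => rfl⟩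
  have hWpos : ∀ T, 0 < W T := fun T => by
    rw [hW]; exact prod_pos (fun i _ => lt_of_lt_of_le zero_lt_one (hw1 i))
  -- existence of trees of order 1 and at least 2
  obtain ⟨e0, he0⟩ := hne
  obtain ⟨u, v, huv⟩ : ∃ u v, e0 = s(u, v) := by
    induction e0 using Sym2.ind with
    | _ u v => exact ⟨u, v, rfl⟩
  subst huv
  have huC : u ∈ C := hEC _ he0 u (Sym2.mem_mk_left u v)
  have hvC : v ∈ C := hEC _ he0 v (Sym2.mem_mk_right u v)
  have huv : u ≠ v := fun h => hl _ he0 (by rw [h]; exact Sym2.mk_isDiag_iff.mpr rfl)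
  have hex1 : ∃ T ∈ tc C EC, T.1.card = 1 := by
    refine ⟨({u}, ∅), ?_, card_singleton u⟩
    unfold tc
    rw [mem_filter]
    exact ⟨single_mem EC u, singleton_subset_iff.mpr huC⟩
  have hex2 : ∃ T ∈ tc C EC, 2 ≤ T.1.card := by
    refine ⟨((insert v {u} : Finset V), (insert s(u, v) ∅ : Finset (Sym2 V))), ?_, ?_⟩
    · unfold tc
      rw [mem_filter]
      refine ⟨pair_mem huv he0, ?_⟩
      intro x hx
      rw [mem_insert, mem_singleton] at hx
      rcases hx with rfl | rfl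
      · exact hvC
      · exact huC
    · show 2 ≤ (insert v {u} : Finset V).card
      rw [card_pair huv.symm]
  -- the four sums
  obtain ⟨M, hM⟩ : ∃ M : ℚ, M = ∑ T ∈ tc C EC, W T := ⟨_, rfl⟩
  obtain ⟨AM, hAM⟩ : ∃ AM : ℚ, AM = ∑ T ∈ tc C EC, W T * ((T.1.card : ℚ) + ∑ v ∈ T.1, β v) := ⟨_, rfl⟩
  obtain ⟨K, hK⟩ : ∃ K : ℚ, K = ∑ T ∈ tc C EC, W T * ((T.1.card : ℚ) - 1) := ⟨_, rfl⟩
  obtain ⟨L, hL⟩ : ∃ L : ℚ, L = ∑ T ∈ tc C EC, W T * (((T.1.card : ℚ) + ∑ v ∈ T.1, β v) * ((T.1.card : ℚ) - 1)) :=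
    ⟨_, rfl⟩
  obtain ⟨O, hO⟩ : ∃ O : ℚ, O = ∑ t ∈ Cᶜ, (wt C φ {t} : ℚ) := ⟨_, rfl⟩
  obtain ⟨AO, hAO⟩ : ∃ AO : ℚ, AO = ∑ t ∈ Cᶜ, ((wt C φ {t} : ℚ) + sz C φ {t}) := ⟨_, rfl⟩
  have hsplit : ∀ g : ℕ → ℕ → ℚ, ∑ p ∈ TP (ed C EC φ), g p.1.card (p.2 ∩ EC).card =
      ∑ p ∈ tc C EC, ∑ R ∈ cl C φ p.1, g (p.1.card + R.card) p.2.card +
        ∑ t ∈ Cᶜ, ∑ R ∈ cl C φ {t}, g (1 + R.card) 0 := by
    intro g
    rw [← sum_meet hrk hEC g, ← sum_avoid hrk hEC g, add_comm]
    exact (sum_filter_add_sum_filter_not (TP (ed C EC φ)) (fun p => Disjoint p.1 C) _).symm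
  have hN : cntN (ed C EC φ) = M + O := by
    have h := hsplit (fun _ _ => 1)
    have e1 : cntN (ed C EC φ) = ∑ p ∈ TP (ed C EC φ), (1 : ℚ) := by
      unfold cntN
      rw [sum_const, nsmul_eq_mul, mul_one]
    rw [e1, h, hM, hO]
    congr 1
    · apply sum_congr rfl
      intro T hT
      rw [sum_const, nsmul_eq_mul, mul_one, hW, ← hWprod T hT]
      rfl
    · apply sum_congr rfl
      intro t _
      rw [sum_const, nsmul_eq_mul, mul_one]
      rfl
  have hA : cntA (ed C EC φ) = AM + AO := by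
    have h := hsplit (fun a _ => (a : ℚ))
    have e1 : cntA (ed C EC φ) = ∑ p ∈ TP (ed C EC φ), (p.1.card : ℚ) := rfl
    rw [e1, h, hAM, hAO]
    congr 1
    · apply sum_congr rfl
      intro T hT
      push_cast
      rw [sum_add_distrib, sum_const, nsmul_eq_mul, hW, mul_add, ← hSprod T hT, ← hWprod T hT]
      unfold sz wt
      push_cast
      ring
    · apply sum_congr rfl
      intro t _
      push_cast
      rw [sum_add_distrib, sum_const, nsmul_eq_mul, mul_one]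
      unfold sz wt
      push_cast
      ring
  have hKs : ∑ p ∈ TP (ed C EC φ), ((p.2 ∩ EC).card : ℚ) = K := by
    have h := hsplit (fun _ b => (b : ℚ))
    rw [h, hK]
    have e2 : ∑ t ∈ Cᶜ, ∑ R ∈ cl C φ {t}, ((0 : ℕ) : ℚ) = 0 := by
      apply sum_eq_zero
      intro t _
      apply sum_eq_zero
      intro R _
      rfl
    rw [e2, add_zero]
    apply sum_congr rfl
    intro T hT
    rw [sum_const, nsmul_eq_mul, hedge T hT, hW, ← hWprod T hT]
    rfl
  have hLs : ∑ p ∈ TP (ed C EC φ), (p.1.card : ℚ) * ((p.2 ∩ EC).card : ℚ) = L := by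
    have h := hsplit (fun a b => (a : ℚ) * (b : ℚ))
    rw [h, hL]
    have e2 : ∑ t ∈ Cᶜ, ∑ R ∈ cl C φ {t}, ((1 + R.card : ℕ) : ℚ) * ((0 : ℕ) : ℚ) = 0 := by
      apply sum_eq_zero
      intro t _
      apply sum_eq_zero
      intro R _
      simp
    rw [e2, add_zero]
    apply sum_congr rfl
    intro T hT
    rw [← sum_mul, hedge T hT, ← mul_assoc]
    congr 1
    push_cast
    rw [sum_add_distrib, sum_const, nsmul_eq_mul, hW, mul_add, ← hSprod T hT, ← hWprod T hT]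
    unfold sz wt
    push_cast
    ring
  have hcovsum : ∑ e ∈ EC, cov (ed C EC φ) e = (M + O) * L - (AM + AO) * K := by
    unfold cov
    rw [sum_sub_distrib, ← mul_sum, ← mul_sum, hN, hA]
    have e1 : ∑ e ∈ EC, cntAe (ed C EC φ) e = L := by
      unfold cntAe ord
      rw [sum_comm, ← hLs]
      apply sum_congr rfl
      intro p _
      rw [← sum_filter, sum_const, nsmul_eq_mul, mul_comm]
      congr 2
      congr 1
      ext a
      rw [mem_filter, mem_inter]
      tauto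
    have e2 : ∑ e ∈ EC, cntNe (ed C EC φ) e = K := by
      unfold cntNe
      rw [sum_comm, ← hKs]
      apply sum_congr rfl
      intro p _
      rw [← sum_filter, sum_const, nsmul_eq_mul, mul_one]
      congr 2
      ext a
      rw [mem_filter, mem_inter]
      tauto
    rw [e1, e2]
  have hMpos : 0 < M := by
    rw [hM]
    obtain ⟨T1, hT1, _⟩ := hex1
    exact sum_pos (fun T _ => hWpos T) ⟨T1, hT1⟩
  have hOnn : 0 ≤ O := by
    rw [hO]
    exact sum_nonneg (fun t _ => Nat.cast_nonneg _)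
  have hKnn : 0 ≤ K := by
    rw [hK]
    apply sum_nonneg
    intro T hT
    have := card_pos_tc hT
    have h3 : (1 : ℚ) ≤ T.1.card := by exact_mod_cast this
    exact mul_nonneg (hWpos T).le (by linarith)
  -- the core inequality
  have hcore : 0 < M * L - AM * K := by
    obtain ⟨kb, hkb⟩ : ∃ kb : ℚ, kb = (K + M) / M := ⟨_, rfl⟩
    have hKM : ∑ T ∈ tc C EC, W T * (T.1.card : ℚ) = K + M := by
      rw [hK, hM, ← sum_add_distrib]
      apply sum_congr rfl
      intro T _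
      ring
    have h0 : ∑ T ∈ tc C EC, (∏ v ∈ T.1, w v) * ((T.1.card : ℚ) - kb) = 0 := by
      have e1 : ∑ T ∈ tc C EC, (∏ v ∈ T.1, w v) * ((T.1.card : ℚ) - kb) =
          ∑ T ∈ tc C EC, W T * (T.1.card : ℚ) - kb * ∑ T ∈ tc C EC, W T := by
        rw [mul_sum, ← sum_sub_distrib]
        apply sum_congr rfl
        intro T _
        rw [hW]
        ring
      rw [e1, hKM, ← hM, hkb]
      field_simp
      ring
    have h1 := c1 hEC hw1 hβ0 hβ2 (D := D) (by
      intro v hv hβv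
      apply hD v hv
      apply att_of_sz hrk
      intro h2
      apply hβv
      rw [hβ, h2]
      simp) (by
      intro T hT
      refine le_trans ?_ (hleaf T hT)
      apply sum_le_sum_of_subset_of_nonneg
      · intro v hv
        rw [mem_filter] at hv ⊢
        refine ⟨hv.1, ?_, hv.2.2⟩
        apply att_of_sz hrk
        intro h2
        apply hv.2.1
        rw [hβ, h2]
        simp
      · intro v _ _
        positivity) hex1 hex2 h0
    have e2 : ∑ T ∈ tc C EC, (∏ v ∈ T.1, w v) * (((T.1.card : ℚ) + ∑ v ∈ T.1, β v) * ((T.1.card : ℚ) - kb)) =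
        L + AM - kb * AM := by
      rw [hL, hAM, mul_sum, ← sum_add_distrib, ← sum_sub_distrib]
      apply sum_congr rfl
      intro T _
      rw [hW]
      ring
    rw [e2, hkb] at h1
    have h3 : 0 < M * (L + AM - (K + M) / M * AM) := mul_pos hMpos h1
    have h4 : M * (L + AM - (K + M) / M * AM) = M * L - AM * K := by
      field_simp
      ring
    linarith
  -- the trees which avoid the core
  have hAOle : AO * M ≤ O * AM := by
    rw [hAO, hO, sum_mul, sum_mul]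
    apply sum_le_sum
    intro t ht
    have h1 := jam_root hrk hr1 hr2 (rk t + 1) t (by omega)
    have h2 := c6 hEC hc hb hw1 hβ0 hβ2 (hr3 t)
    simp only [← hW, ← hM, ← hAM] at h2
    have p3 : (0 : ℚ) < wt C φ {r t} := by exact_mod_cast wt_pos C φ {r t}
    have p1 : (0 : ℚ) < wt C φ {t} := by exact_mod_cast wt_pos C φ {t}
    have h3 : (sz C φ {t} : ℚ) ≤ β (r t) * wt C φ {t} := by
      rw [hβ, div_mul_eq_mul_div, le_div_iff₀ p3]
      exact h1
    calc ((wt C φ {t} : ℚ) + sz C φ {t}) * M ≤ ((wt C φ {t} : ℚ) + β (r t) * wt C φ {t}) * M :=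
          mul_le_mul_of_nonneg_right (by linarith) hMpos.le
      _ = wt C φ {t} * ((1 + β (r t)) * M) := by ring
      _ ≤ wt C φ {t} * AM := mul_le_mul_of_nonneg_left h2 p1.le
  have hfin : 0 < (M + O) * L - (AM + AO) * K := by
    have h1 : (M + O) * (M * L - AM * K) ≤ M * ((M + O) * L - (AM + AO) * K) := by
      have h2 := mul_le_mul_of_nonneg_right hAOle hKnn
      have h3 : M * ((M + O) * L - (AM + AO) * K) - (M + O) * (M * L - AM * K) = O * AM * K - AO * M * K := by ring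
      linarith
    have h4 : 0 < (M + O) * (M * L - AM * K) := mul_pos (by linarith) hcore
    have h5 : 0 < M * ((M + O) * L - (AM + AO) * K) := lt_of_lt_of_le h4 h1
    exact (mul_pos_iff_of_pos_left hMpos).mp h5
  by_contra hcon
  push Not at hcon
  have h1 := sum_nonpos hcon
  rw [hcovsum] at h1
  linarith

end Pool.Agent.LibOC52
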