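import Mathlib
import Pool.Agent.LibOC52.Defs

set_option autoImplicit false
set_option linter.unusedSectionVars false

namespace Pool.Agent.LibOC52

open Finset Pool.Agent.LibMST Pool.Agent.LibMSB

variable {V : Type*} [Fintype V] [DecidableEq V]

private lemma G1_adj_C {G : SimpleGraph V} {EC : Finset (Sym2 V)} {C : Finset V}
    (hC : ∀ v, v ∈ C ↔ ∃ e ∈ EC, v ∈ e) {a b : V} (h : s(a, b) ∈ EC) : a ∈ C ∧ b ∈ C :=
  ⟨(hC a).2 ⟨_, h, Sym2.mem_mk_left a b⟩, (hC b).2 ⟨_, h, Sym2.mem_mk_right a b⟩⟩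

private lemma G1_phi (G : SimpleGraph V) (hG : G.Connected) (C : Finset V) (hCn : C.Nonempty) :
    ∃ (φ : V → V) (rk : V → ℕ), ∀ x ∉ C, G.Adj x (φ x) ∧ rk (φ x) < rk x := by
  classical
  have key : ∀ x, ∃ y, x ∉ C → G.Adj x y ∧
      C.inf' hCn (fun c => G.dist y c) < C.inf' hCn (fun c => G.dist x c) := by
    intro x
    by_cases hx : x ∈ C
    · exact ⟨x, fun h => absurd hx h⟩
    · obtain ⟨c, hc, hc2⟩ := Finset.exists_mem_eq_inf' hCn (fun c => G.dist x c)
      obtain ⟨p, hp⟩ := hG.exists_walk_length_eq_dist x c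
      cases p with
      | nil => exact absurd hc hx
      | cons h q =>
        rename_i y
        refine ⟨y, fun _ => ⟨h, ?_⟩⟩
        rw [hc2]
        have h1 : C.inf' hCn (fun c => G.dist y c) ≤ G.dist y c :=
          Finset.inf'_le (fun c => G.dist y c) hc
        have h2 : G.dist y c ≤ q.length := SimpleGraph.dist_le q
        rw [SimpleGraph.Walk.length_cons] at hp
        show C.inf' hCn (fun c => G.dist y c) < G.dist x c
        omega
  choose φ hφ using key
  exact ⟨φ, fun x => C.inf' hCn (fun c => G.dist x c), fun x hx => hφ x hx⟩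

private lemma G1_adj_del {G : SimpleGraph V} {e : Sym2 V} {a b : V} (h : G.Adj a b)
    (he : s(a, b) ≠ e) : (G.deleteEdges {e}).Adj a b := by
  rw [SimpleGraph.deleteEdges_adj]
  exact ⟨h, fun h2 => he (by simpa using h2)⟩

private lemma G1_le {G : SimpleGraph V} {EC : Finset (Sym2 V)}
    (hEC : ∀ e, e ∈ EC ↔ e ∈ G.edgeSet ∧ (G.deleteEdges {e}).Connected) {e : Sym2 V}
    (he : e ∉ EC) : SimpleGraph.fromEdgeSet (EC : Set (Sym2 V)) ≤ G.deleteEdges {e} := by
  intro a b hab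
  rw [SimpleGraph.fromEdgeSet_adj] at hab
  have h1 : s(a, b) ∈ EC := by exact_mod_cast hab.1
  have h2 : G.Adj a b := (SimpleGraph.mem_edgeSet G).1 ((hEC _).1 h1).1
  exact G1_adj_del h2 (fun h3 => he (h3 ▸ h1))

private lemma G1_conn {G : SimpleGraph V} (hG : G.Connected) {EC : Finset (Sym2 V)} {C : Finset V}
    (hEC : ∀ e, e ∈ EC ↔ e ∈ G.edgeSet ∧ (G.deleteEdges {e}).Connected)
    (hcore : ∀ u ∈ C, ∀ v ∈ C, (SimpleGraph.fromEdgeSet (EC : Set (Sym2 V))).Reachable u v)
    {φ : V → V} {rk : V → ℕ} (hφ : ∀ x ∉ C, G.Adj x (φ x) ∧ rk (φ x) < rk x) {e : Sym2 V}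
    (he : e ∉ EC) (hne : ∀ x ∉ C, s(x, φ x) ≠ e) : (G.deleteEdges {e}).Connected := by
  have hA : ∀ n x, rk x < n → ∃ c ∈ C, (G.deleteEdges {e}).Reachable x c := by
    intro n
    induction n with
    | zero => intro x hx; omega
    | succ n ih =>
      intro x hx
      by_cases hxC : x ∈ C
      · exact ⟨x, hxC, SimpleGraph.Reachable.refl x⟩
      · obtain ⟨h1, h2⟩ := hφ x hxC
        obtain ⟨c, hc, hr⟩ := ih (φ x) (by omega)
        exact ⟨c, hc, (G1_adj_del h1 (hne x hxC)).reachable.trans hr⟩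
  have hle := G1_le hEC he
  have : Nonempty V := hG.nonempty
  refine SimpleGraph.Connected.mk ?_
  intro x y
  obtain ⟨c, hc, hxc⟩ := hA _ x (Nat.lt_succ_self _)
  obtain ⟨c', hc', hyc⟩ := hA _ y (Nat.lt_succ_self _)
  exact hxc.trans (((hcore c hc c' hc').mono hle).trans hyc.symm)

/-- ROW G1 (MEDIUM+, simple graphs). The frame of a connected graph whose non-bridge edges form one connected core.
`E` = edges, `EC` = edges `e` with `G.deleteEdges {e}` connected, `C` = vertices of these edges.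
Plan. `C` is not empty (hne). `rk x` = least distance `G.dist x c`, `c ∈ C`. For `x ∉ C` a shortest path to `C` has a second vertex `y`
adjacent to `x` with `rk y < rk x` (`SimpleGraph.Reachable.exists_walk_length_eq_dist` or `exists_path`; take a walk `cons`): choose `φ x = y`.
(i) `EC ∪ image ⊆ E` clear. (ii) Let `e ∈ E \ EC` (a bridge), and suppose `e ≠ s(x, φ x)` for all `x ∉ C`. Then `G.deleteEdges {e}` is connected: every
`x` reaches `C` along `φ` (strong induction on `rk`), and two vertices of `C` are joined by edges of `EC` (`hcore`: reachable in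
`SimpleGraph.fromEdgeSet EC`, map to `G.deleteEdges {e}`): contradiction with `e ∉ EC`. (iii) `Cn EC C`: for `U` a proper nonempty subset of `C` take a walk in
`fromEdgeSet EC` from a vertex of `U` to a vertex of `C \ U` (`Walk.exists_boundary_dart`). (iv) `Cn (EC.erase e) C` for `e ∈ EC`: `G.deleteEdges {e}` is connected;
take `u ∈ U`, `v ∈ C \ U` and let `U' = {x : r x ∈ U}` with `r` from `exists_root`; a walk in `G.deleteEdges {e}` from `u` to `v` has a boundary dart for `U'`; its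
edge is not `s(x, φ x)` with `x ∉ C` (`r x = r (φ x)`), so it is in `EC`, not `e`, and its ends are in `C` (`r` = identity there). -/
theorem frame (G : SimpleGraph V) [DecidableRel G.Adj] (hG : G.Connected) (E EC : Finset (Sym2 V)) (C : Finset V)
    (hE : ∀ e, e ∈ E ↔ e ∈ G.edgeSet) (hEC : ∀ e, e ∈ EC ↔ e ∈ G.edgeSet ∧ (G.deleteEdges {e}).Connected)
    (hC : ∀ v, v ∈ C ↔ ∃ e ∈ EC, v ∈ e) (hne : EC.Nonempty)
    (hcore : ∀ u ∈ C, ∀ v ∈ C, (SimpleGraph.fromEdgeSet (EC : Set (Sym2 V))).Reachable u v) :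
    ∃ (φ : V → V) (rk : V → ℕ), (∀ x ∉ C, rk (φ x) < rk x) ∧ E = ed C EC φ ∧ Cn EC C ∧
      ∀ e ∈ EC, Cn (EC.erase e) C := by
  classical
  have hCn : C.Nonempty := by
    obtain ⟨e, he⟩ := hne
    induction e using Sym2.ind with
    | _ a b => exact ⟨a, (hC a).2 ⟨_, he, Sym2.mem_mk_left a b⟩⟩
  obtain ⟨φ, rk, hφ⟩ := G1_phi G hG C hCn
  have hrk : ∀ x ∉ C, rk (φ x) < rk x := fun x hx => (hφ x hx).2
  have hEd : E = ed C EC φ := by
    ext e
    unfold ed
    rw [mem_union, mem_image]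
    constructor
    · intro he
      by_contra hcon
      push Not at hcon
      obtain ⟨h1, h2⟩ := hcon
      apply h1
      rw [hEC]
      refine ⟨(hE e).1 he, G1_conn hG hEC hcore hφ h1 ?_⟩
      intro x hx
      exact h2 x (mem_compl.2 hx)
    · rintro (he | ⟨x, hx, rfl⟩)
      · exact (hE e).2 ((hEC e).1 he).1
      · exact (hE _).2 ((SimpleGraph.mem_edgeSet G).2 (hφ x (mem_compl.1 hx)).1)
  refine ⟨φ, rk, hrk, hEd, ?_, ?_⟩
  · intro U hUC hU hne2
    obtain ⟨u0, hu0⟩ := hU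
    obtain ⟨v0, hv0, hv0U⟩ : ∃ v ∈ C, v ∉ U := by
      by_contra hcon
      push Not at hcon
      exact hne2 (Finset.Subset.antisymm hUC hcon)
    obtain ⟨p⟩ := hcore u0 (hUC hu0) v0 hv0
    obtain ⟨d, _, hd1, hd2⟩ := p.exists_boundary_dart (U : Set V) (by exact_mod_cast hu0)
      (by exact_mod_cast hv0U)
    have h1 := d.adj
    rw [SimpleGraph.fromEdgeSet_adj] at h1
    have h2 : s(d.fst, d.snd) ∈ EC := by exact_mod_cast h1.1
    exact ⟨d.fst, by exact_mod_cast hd1, d.snd, (G1_adj_C (G := G) hC h2).2, by exact_mod_cast hd2, h2⟩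
  · intro e he U hUC hU hne2
    obtain ⟨r, hr1, hr2, hr3⟩ := exists_root hrk
    obtain ⟨u0, hu0⟩ := hU
    obtain ⟨v0, hv0, hv0U⟩ : ∃ v ∈ C, v ∉ U := by
      by_contra hcon
      push Not at hcon
      exact hne2 (Finset.Subset.antisymm hUC hcon)
    obtain ⟨p⟩ := ((hEC e).1 he).2.preconnected u0 v0
    obtain ⟨d, _, hd1, hd2⟩ := p.exists_boundary_dart {x | r x ∈ U}
      (by show r u0 ∈ U; rw [hr1 _ (hUC hu0)]; exact hu0)
      (by show ¬ r v0 ∈ U; rw [hr1 _ hv0]; exact hv0U)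
    have hd1' : r d.fst ∈ U := hd1
    have hd2' : r d.snd ∉ U := hd2
    have h1 := d.adj
    rw [SimpleGraph.deleteEdges_adj] at h1
    have h2 : s(d.fst, d.snd) ∈ E := (hE _).2 ((SimpleGraph.mem_edgeSet G).2 h1.1)
    have h3 : s(d.fst, d.snd) ≠ e := fun h4 => h1.2 (by rw [h4]; rfl)
    rw [hEd] at h2
    unfold ed at h2
    rw [mem_union, mem_image] at h2
    rcases h2 with h2 | ⟨x, hx, hx2⟩
    · obtain ⟨ha, hb⟩ := G1_adj_C (G := G) hC h2
      rw [hr1 _ ha] at hd1'
      rw [hr1 _ hb] at hd2'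
      exact ⟨d.fst, hd1', d.snd, hb, hd2', mem_erase.2 ⟨h3, h2⟩⟩
    · exfalso
      have h5 := hr2 x (mem_compl.1 hx)
      rcases Sym2.eq_iff.1 hx2 with ⟨h6, h7⟩ | ⟨h6, h7⟩
      · rw [h7, h6] at h5
        rw [h5] at hd1'
        exact hd2' hd1'
      · rw [h7, h6] at h5
        rw [← h5] at hd1'
        exact hd2' hd1'

end Pool.Agent.LibOC52
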