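import Mathlib
import Pool.Agent.LibOC52.Defs

set_option autoImplicit false
set_option linter.unusedSectionVars false

namespace Pool.Agent.LibOC52

open Finset Pool.Agent.LibMST Pool.Agent.LibMSB

variable {V : Type*} [Fintype V] [DecidableEq V]

private theorem l1_hs {U : Finset V} {B : Finset (Sym2 V)} (h1 : ∀ e ∈ B, ∀ x ∈ e, x ∈ U)
    (h2 : ∀ e ∈ B, ¬ e.IsDiag) :
    ∑ v ∈ U, (B.filter (fun e => v ∈ e)).card = 2 * B.card := by
  have key : ∑ v ∈ U, (B.filter (fun e => v ∈ e)).card
      = ∑ e ∈ B, (U.filter (fun v => v ∈ e)).card :=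
    Finset.sum_card_bipartiteAbove_eq_sum_card_bipartiteBelow (fun v e => v ∈ e)
  rw [key]
  have h3 : ∀ e ∈ B, (U.filter (fun v => v ∈ e)).card = 2 := by
    intro e he
    have h4 := h1 e he
    have h5 := h2 e he
    induction e using Sym2.ind with
    | _ x y =>
      have hxy : x ≠ y := by
        intro h
        exact h5 (by rw [Sym2.mk_isDiag_iff]; exact h)
      have h6 : U.filter (fun v => v ∈ s(x, y)) = {x, y} := by
        ext v
        rw [mem_filter, Sym2.mem_iff, mem_insert, mem_singleton]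
        constructor
        · intro h; exact h.2
        · intro h
          refine ⟨?_, h⟩
          rcases h with rfl | rfl
          · exact h4 _ (Sym2.mem_mk_left _ _)
          · exact h4 _ (Sym2.mem_mk_right _ _)
      rw [h6, card_pair hxy]
  rw [sum_congr rfl h3, sum_const, smul_eq_mul, mul_comm]

private theorem l1_nd {r : V} {C : Finset V} {B : Finset (Sym2 V)} (h : Grow r C B) :
    ∀ e ∈ B, ¬ e.IsDiag := by
  induction h with
  | base => simp
  | @step C B x w h hx hw ih =>
    intro e he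
    rw [mem_insert] at he
    rcases he with rfl | he
    · rw [Sym2.mk_isDiag_iff]
      rintro rfl
      exact hw hx
    · exact ih e he

/-- ROW L1 (MEDIUM). A tree `(U, F)` of the core has at most `2 + 2 (|EC| - |C|)` leaves.
Plan. `dF v = (F.filter (v ∈ ·)).card`, `dE v` the same for `EC`. Handshake: `∑ v ∈ U, dF v = 2 |F|` and `∑ v ∈ C, dE v = 2 |EC|`
(double counting: an edge without loop has exactly two vertices, both in the set; loops are not in `F` by Grow, for `EC` by `hl`). `|F| + 1 = |U|`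
(Grow.card_eq). For `|U| = 1` there is no leaf. For `|U| ≥ 2` every `v ∈ U` has `dF v ≥ 1` (Grow.cover after Grow.reroot), so
`(1 if leaf) ≤ ... `: for `v ∈ U`: `[leaf v] + dF v ≤ 2 + (dE v - 2) + ...`, precisely `[dF v = 1] + 2 ≤ 2 + (dF v - 2)^+ ...`: simplest in ℤ:
for `dF v = 1`: `[leaf] = 2 - dF v`; for `dF v ≥ 2`: `[leaf] = 0 ≤ (2 - dF v) + (dE v - 2)` as `dF v ≤ dE v`; so in both cases
`[leaf v] ≤ (2 - dF v) + (dE v - 2)` (`dE v ≥ 2`). Sum over `U` and add `0 ≤ dE v - 2` for `v ∈ C \ U`: leaves `≤ 2 |U| - 2 |F| + 2 |EC| - 2 |C|`. -/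
theorem leaves {C : Finset V} {EC : Finset (Sym2 V)} (hEC : ∀ e ∈ EC, ∀ x ∈ e, x ∈ C) (hl : ∀ e ∈ EC, ¬ e.IsDiag)
    (hd : ∀ v ∈ C, 2 ≤ (EC.filter (fun e => v ∈ e)).card) {T : Finset V × Finset (Sym2 V)} (hT : T ∈ tc C EC) :
    (C.filter (fun v => Lf T v)).card + 2 * C.card ≤ 2 + 2 * EC.card := by
  rw [mem_tc] at hT
  obtain ⟨⟨hsub, r, hg⟩, hUC⟩ := hT
  have hF : ∑ v ∈ C, (T.2.filter (fun e => v ∈ e)).card = 2 * T.2.card :=
    l1_hs (fun e he x hx => hUC (hg.edge_sub e he x hx)) (l1_nd hg)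
  have hE : ∑ v ∈ C, (EC.filter (fun e => v ∈ e)).card = 2 * EC.card := l1_hs hEC hl
  have hc := hg.card_eq
  have hU : ∑ v ∈ C, (if v ∈ T.1 then 2 else 0) = 2 * T.1.card := by
    rw [← sum_filter, filter_mem_eq_inter, inter_eq_right.mpr hUC, sum_const, smul_eq_mul, mul_comm]
  have hL : (C.filter (fun v => Lf T v)).card = ∑ v ∈ C, (if Lf T v then 1 else 0) := by
    rw [card_filter]
  have hterm : ∀ v ∈ C, (if Lf T v then 1 else 0) + 2 + (T.2.filter (fun e => v ∈ e)).card
      ≤ (EC.filter (fun e => v ∈ e)).card + (if v ∈ T.1 then 2 else 0) := by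
    intro v hv
    have h2 := hd v hv
    have hle : (T.2.filter (fun e => v ∈ e)).card ≤ (EC.filter (fun e => v ∈ e)).card :=
      card_le_card (filter_subset_filter _ hsub)
    by_cases hvU : v ∈ T.1
    · rw [if_pos hvU]
      by_cases hlf : Lf T v
      · rw [if_pos hlf]
        unfold Lf at hlf
        omega
      · rw [if_neg hlf]
        omega
    · have h0 : (T.2.filter (fun e => v ∈ e)).card = 0 := by
        rw [card_eq_zero, filter_eq_empty_iff]
        intro e he hve
        exact hvU (hg.edge_sub e he v hve)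
      have hlf : ¬ Lf T v := by
        unfold Lf
        omega
      rw [if_neg hvU, if_neg hlf]
      omega
  have hsum := sum_le_sum hterm
  rw [sum_add_distrib, sum_add_distrib, sum_add_distrib, sum_const, smul_eq_mul, hF, hE, hU, ← hL] at hsum
  omega

end Pool.Agent.LibOC52
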