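import Mathlib
import Pool.Agent.LibOC52.X3

set_option autoImplicit false
set_option linter.unusedSectionVars false

namespace Pool.Agent.LibOC52

open Finset Pool.Agent.LibMST Pool.Agent.LibMSB

variable {V : Type*} [Fintype V] [DecidableEq V]

private theorem Z1_mono {A B : Finset (Sym2 V)} (hAB : A ⊆ B) {T T' : Finset V × Finset (Sym2 V)} {h : V}
    {d : ℕ} (hx : Ext A T h T' d) : Ext B T h T' d := by
  induction hx with
  | one hu hh he => exact Ext.one hu hh (hAB he)
  | succ h1 hh he ih => exact Ext.succ ih hh (hAB he)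

private theorem Z1_vert {A : Finset (Sym2 V)} {T T' : Finset V × Finset (Sym2 V)} {h : V}
    {d : ℕ} (hx : Ext A T h T' d) : ∀ x ∈ T'.1, x ∈ T.1 ∨ ∃ e ∈ A, x ∈ e := by
  induction hx with
  | @one u h hu hh he =>
    intro x hx
    rcases mem_insert.1 hx with rfl | hx
    · exact Or.inr ⟨_, he, Sym2.mem_mk_right u x⟩
    · exact Or.inl hx
  | @succ u h T' d h1 hh he ih =>
    intro x hx
    rcases mem_insert.1 hx with rfl | hx
    · exact Or.inr ⟨_, he, Sym2.mem_mk_right u x⟩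
    · exact ih x hx

private theorem Z1_edge {A : Finset (Sym2 V)} {T T' : Finset V × Finset (Sym2 V)} {h : V}
    {d : ℕ} (hx : Ext A T h T' d) : ∀ e ∈ T'.2, e ∈ T.2 ∨ e ∈ A := by
  induction hx with
  | @one u h hu hh he =>
    intro e he'
    rcases mem_insert.1 he' with rfl | he'
    · exact Or.inr he
    · exact Or.inl he'
  | @succ u h T' d h1 hh he ih =>
    intro e he'
    rcases mem_insert.1 he' with rfl | he'
    · exact Or.inr he
    · exact ih e he'

private theorem Z1_filter {B : Finset (Sym2 V)} {u h : V} (hno : ∀ e ∈ B, h ∉ e) :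
    (insert s(u, h) B).filter (fun e => h ∈ e) = {s(u, h)} := by
  ext e
  rw [mem_filter, mem_insert, mem_singleton]
  constructor
  · rintro ⟨rfl | he, hm⟩
    · rfl
    · exact absurd hm (hno e he)
  · rintro rfl
    exact ⟨Or.inl rfl, Sym2.mem_mk_right u h⟩

private theorem Z1_one {C : Finset V} {EC : Finset (Sym2 V)} (hEC : ∀ e ∈ EC, ∀ x ∈ e, x ∈ C)
    (hl : ∀ e ∈ EC, ¬ e.IsDiag) {h : V} (hcut : Cn (EC.filter (fun e => h ∉ e)) (C.erase h))
    {T : Finset V × Finset (Sym2 V)} (hT : T ∈ tc C EC) (hn : h ∉ T.1) {e : Sym2 V} (he : e ∈ EC)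
    (hm : h ∈ e) :
    ∃ p : (Σ _ : Finset V × Finset (Sym2 V), ℕ), Ext EC T h p.1 p.2 ∧
      p.1.2.filter (fun e => h ∈ e) = {e} := by
  obtain ⟨⟨_, r, hg⟩, hTC⟩ := mem_tc.1 hT
  obtain ⟨u, rfl⟩ : ∃ u, e = s(u, h) := by
    obtain ⟨u, hu⟩ := hm
    exact ⟨u, by rw [hu, Sym2.eq_swap]⟩
  have huh : u ≠ h := by
    intro h1
    exact hl _ he (by rw [h1]; exact Sym2.mk_isDiag_iff.2 rfl)
  have huC : u ∈ C := hEC _ he u (Sym2.mem_mk_left u h)
  have hno : ∀ e ∈ T.2, h ∉ e := fun e he' hm' => hn (hg.edge_sub e he' h hm')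
  by_cases hu : u ∈ T.1
  · exact ⟨⟨(insert h T.1, insert s(u, h) T.2), 1⟩, Ext.one hu hn he, Z1_filter hno⟩
  · have hsub : T.1 ⊆ C.erase h := by
      intro x hx
      rw [mem_erase]
      refine ⟨?_, hTC hx⟩
      rintro rfl
      exact hn hx
    obtain ⟨T0, d0, hx⟩ := ext_exists hcut hsub ⟨r, hg.root_mem⟩
      (h := u) (by rw [mem_erase]; exact ⟨huh, huC⟩) hu
    have h0 : h ∉ T0.1 := by
      intro h1
      rcases Z1_vert hx h h1 with h2 | ⟨e, h2, h3⟩
      · exact hn h2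
      · rw [mem_filter] at h2
        exact h2.2 h3
    have h0' : ∀ e ∈ T0.2, h ∉ e := by
      intro e he'
      rcases Z1_edge hx e he' with h2 | h2
      · exact hno e h2
      · rw [mem_filter] at h2
        exact h2.2
    exact ⟨⟨(insert h T0.1, insert s(u, h) T0.2), d0 + 1⟩,
      Ext.succ (Z1_mono (filter_subset _ _) hx) h0 he, Z1_filter h0'⟩

/-- ROW Z1 (MEDIUM). If the core stays connected without `h`, every edge `e = s(u, h)` of the core gives an extension with end `h` and last edge `e`.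
Plan. `A = EC.filter (h ∉ ·)`. Fix `T ∈ tc C EC`, `h ∉ T.1` (`T.1 ⊆ C`, nonempty by `Grow.root_mem`). (1) For every `e ∈ EC` with `h ∈ e` there are `T'`, `d` with
`Ext EC T h T' d` and `T'.2.filter (h ∈ ·) = {e}` (or: `e ∈ T'.2` and every edge of `T'.2` with `h` is `e`): write `e = s(u, h)`, `u ≠ h` by `hl`, `u ∈ C` by `hEC`. If `u ∈ T.1`: `Ext.one`. Else
`ext_exists` for `C.erase h`, `A`, `u` gives `Ext A T u T0 d0`; it is also `Ext EC T u T0 d0` (induction on Ext, `A ⊆ EC`); `h ∉ T0.1` (induction on Ext: all new vertices lie on an edge of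
`A`, which avoids `h`); use `Ext.succ`. `T.2` has no edge at `h` (`Grow.edge_sub`, see X1_no in X1.lean) and the edges of `T0.2` are in `T.2 ∪ A` (induction), so `e` is the only edge at `h`.
(2) `choose` such a `p e = ⟨T', d⟩` for `e ∈ EC.filter (h ∈ ·)` (use a total function, e.g. via `Finset.attach` or by_cases); `P = image p`; `p` is injective by the last edge. -/
theorem Nx_deg {C : Finset V} {EC : Finset (Sym2 V)} (hEC : ∀ e ∈ EC, ∀ x ∈ e, x ∈ C) (hl : ∀ e ∈ EC, ¬ e.IsDiag)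
    {h : V} (hcut : Cn (EC.filter (fun e => h ∉ e)) (C.erase h)) :
    Nx C EC h (EC.filter (fun e => h ∈ e)).card := by
  classical
  intro T hT hn
  have hex : ∀ e : Sym2 V, ∃ p : (Σ _ : Finset V × Finset (Sym2 V), ℕ),
      e ∈ EC.filter (fun e => h ∈ e) → Ext EC T h p.1 p.2 ∧ p.1.2.filter (fun e => h ∈ e) = {e} := by
    intro e
    by_cases he : e ∈ EC.filter (fun e => h ∈ e)
    · have he' := mem_filter.1 he
      obtain ⟨p, hp⟩ := Z1_one hEC hl hcut hT hn he'.1 he'.2
      exact ⟨p, fun _ => hp⟩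
    · exact ⟨⟨T, 0⟩, fun h1 => absurd h1 he⟩
  choose p hp using hex
  refine ⟨(EC.filter (fun e => h ∈ e)).image p, ?_, ?_⟩
  · apply le_of_eq
    symm
    apply card_image_of_injOn
    intro e1 h1 e2 h2 h3
    have h4 := (hp e1 (mem_coe.1 h1)).2
    have h5 := (hp e2 (mem_coe.1 h2)).2
    rw [h3, h5] at h4
    exact (singleton_inj.1 h4).symm
  · intro q hq
    obtain ⟨e, he, rfl⟩ := mem_image.1 hq
    exact (hp e he).1

end Pool.Agent.LibOC52
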